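import Mathlib

set_option autoImplicit false
set_option linter.unusedSectionVars false
set_option linter.unusedVariables false

open Subgroup
open scoped Pointwise

namespace Pool.Agent.Results.MP_01ebcc_al.AbscissaOne

/-- A generating vector of the group `G`: `h` pairs `(a i, b i)` and `r` nontrivial elements `c i`
which together generate `G` and satisfy `[a 1, b 1] ⋯ [a h, b h] c 1 ⋯ c r = 1`. -/
structure GeneratingVector (G : Type) [Group G] (h r : ℕ) where
  a : Fin h → G
  b : Fin h → G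
  c : Fin r → G
  c_ne_one : ∀ i, c i ≠ 1
  closure_eq_top : closure (Set.range a ∪ Set.range b ∪ Set.range c) = ⊤
  prod_eq_one : (List.ofFn fun i => a i * b i * (a i)⁻¹ * (b i)⁻¹).prod * (List.ofFn c).prod = 1

/-- The group `G` is finite and acts (faithfully) on a closed Riemann surface of genus `g`, in the
form given by Riemann's existence theorem: `G` has a generating vector which satisfies the
Riemann-Hurwitz formula `2 g - 2 = |G| (2 h - 2 + ∑ (1 - 1 / ord (c i)))`. -/
def ActsOnGenus (G : Type) [Group G] (g : ℕ) : Prop :=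
  Finite G ∧ ∃ (h r : ℕ) (v : GeneratingVector G h r),
    2 * (g : ℚ) - 2 =
      (Nat.card G : ℚ) * (2 * (h : ℚ) - 2 + ∑ i : Fin r, (1 - 1 / (orderOf (v.c i) : ℚ)))

/-- Orders of the finite groups acting in genus `g`. -/
def actionOrders (g : ℕ) : Set ℕ :=
  {n | ∃ (G : Type) (_ : Group G), ActsOnGenus G g ∧ Nat.card G = n}

/-- `H`: the genera `g ≥ 2` for which the largest order of a finite group acting on a closed
Riemann surface of genus `g` is `8 (g + 1)`. -/
def accolaMaclachlanGenera : Set ℕ := {g | 2 ≤ g ∧ IsGreatest (actionOrders g) (8 * (g + 1))}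

section LemA

variable {G : Type} [Group G] [Finite G]

/-- `g ↦ g ^ (|C| / p)` is a homomorphism on a group with central subgroup of order `p`. -/
theorem pow_hom {C : Type} [Group C] [Finite C] (p l : ℕ) (hl : Nat.card C = l * p)
    (hp : p ∣ Nat.card (center C)) (a b : C) : (a * b) ^ l = a ^ l * b ^ l := by
  obtain ⟨k, hk⟩ := hp
  have hcpos : 0 < Nat.card (center C) := Nat.card_pos
  have hp0 : 0 < p := by
    rcases Nat.eq_zero_or_pos p with h | h
    · rw [h] at hk; omega
    · exact h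
  have h1 : l = (center C).index * k := by
    have h2 := (center C).index_mul_card
    rw [hl, hk] at h2
    have h3 : ((center C).index * k) * p = l * p := by rw [← h2]; ring
    exact (Nat.eq_of_mul_eq_mul_right hp0 h3).symm
  have h4 : ∀ g : C, g ^ l = ((MonoidHom.transferCenterPow C g : center C) ^ k : center C) := by
    intro g
    rw [Subgroup.coe_pow, MonoidHom.transferCenterPow_apply, h1, pow_mul]
  have hc : Commute (MonoidHom.transferCenterPow C a) (MonoidHom.transferCenterPow C b) := by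
    apply Subtype.ext
    exact (mem_center_iff.mp (MonoidHom.transferCenterPow C b).2 _)
  rw [h4, h4, h4, map_mul, hc.mul_pow, Subgroup.coe_mul]

theorem lemA {p : ℕ} [hp : Fact p.Prime] (P : Subgroup G) [hPn : P.Normal] (hP : Nat.card P = p)
    (hcop : ¬ p ^ 2 ∣ Nat.card G) (x y z w : G) (hrel : x * y * z * w = 1)
    (hgen : closure {x, y, z, w} = ⊤)
    (ox : ¬ p ∣ orderOf x) (oy : ¬ p ∣ orderOf y) (oz : ¬ p ∣ orderOf z) (ow : ¬ p ∣ orderOf w)
    (hx : x ^ 2 ∈ centralizer (P : Set G)) (hy : y ^ 2 ∈ centralizer (P : Set G))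
    (hz : z ^ 2 ∈ centralizer (P : Set G)) (hw : w ∈ centralizer (P : Set G)) : False := by
  set C : Subgroup G := centralizer (P : Set G) with hC
  have hCn : C.Normal := by rw [hC]; infer_instance
  have hPcomm : ∀ a ∈ P, ∀ b ∈ P, a * b = b * a := by
    intro a ha b hb
    have hcyc : IsCyclic P := isCyclic_of_prime_card hP
    have := hcyc.commGroup.mul_comm (⟨a, ha⟩ : P) ⟨b, hb⟩
    exact congrArg Subtype.val this
  have hPC : P ≤ C := by
    intro a ha
    rw [hC, mem_centralizer_iff]
    intro b hb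
    exact hPcomm b hb a ha
  -- the order of `C`
  obtain ⟨l, hl⟩ : p ∣ Nat.card C := by
    rw [← hP]; exact Subgroup.card_dvd_of_le hPC
  have hl' : Nat.card C = l * p := by rw [hl, mul_comm]
  have hlp : ¬ p ∣ l := by
    intro h
    apply hcop
    obtain ⟨j, hj⟩ := h
    have h1 : Nat.card C ∣ Nat.card G := Subgroup.card_subgroup_dvd_card C
    refine dvd_trans ⟨j, ?_⟩ h1
    rw [hl, hj]; ring
  have hcen : p ∣ Nat.card (center C) := by
    have h1 : P.subgroupOf C ≤ center C := by
      intro a ha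
      rw [mem_center_iff]
      intro g
      apply Subtype.ext
      have hg : (g : G) ∈ centralizer (P : Set G) := g.2
      rw [mem_centralizer_iff] at hg
      exact (hg a.1 (mem_subgroupOf.mp ha)).symm
    have h2 : Nat.card (P.subgroupOf C) = p := by
      rw [← hP]
      exact Nat.card_congr (Subgroup.subgroupOfEquivOfLe hPC).toEquiv
    rw [← h2]
    exact Subgroup.card_dvd_of_le h1
  have hhom := pow_hom (C := C) p l hl' hcen
  -- the kernel
  let L : Subgroup G :=
    { carrier := {g | g ∈ C ∧ g ^ l = 1}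
      mul_mem' := by
        rintro a b ⟨ha, ha'⟩ ⟨hb, hb'⟩
        refine ⟨C.mul_mem ha hb, ?_⟩
        have h1 := congrArg Subtype.val (hhom ⟨a, ha⟩ ⟨b, hb⟩)
        simp only [Subgroup.coe_pow, Subgroup.coe_mul] at h1
        rw [h1, ha', hb', one_mul]
      one_mem' := ⟨C.one_mem, one_pow l⟩
      inv_mem' := by
        rintro a ⟨ha, ha'⟩
        exact ⟨C.inv_mem ha, by rw [inv_pow, ha', inv_one]⟩ }
  have hLmem : ∀ g, g ∈ L ↔ g ∈ C ∧ g ^ l = 1 := fun g => Iff.rfl
  have hLn : L.Normal := by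
    constructor
    intro n hn g
    rw [hLmem] at hn ⊢
    refine ⟨hCn.conj_mem n hn.1 g, ?_⟩
    rw [conj_pow, hn.2, mul_one, mul_inv_cancel]
  have hLC : L ≤ C := fun g hg => hg.1
  have hmemL : ∀ g ∈ C, ¬ p ∣ orderOf g → g ∈ L := by
    intro g hg hog
    refine ⟨hg, ?_⟩
    have h1 : (g ^ l) ^ p = 1 := by
      rw [← pow_mul, ← hl']
      have h2 : (⟨g, hg⟩ : C) ^ Nat.card C = 1 := pow_card_eq_one'
      exact congrArg Subtype.val h2
    have h2 : orderOf (g ^ l) ∣ p := orderOf_dvd_of_pow_eq_one h1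
    rcases (Nat.dvd_prime hp.out).mp h2 with h3 | h3
    · exact orderOf_eq_one_iff.mp h3
    · exfalso
      apply hog
      rw [← h3]
      exact orderOf_pow_dvd l
  have hPL : ¬ P ≤ L := by
    intro hle
    have h1 : ∃ q ∈ P, q ≠ 1 := by
      by_contra hcon
      push Not at hcon
      have : P = ⊥ := by
        rw [eq_bot_iff]
        intro q hq
        exact mem_bot.mpr (hcon q hq)
      rw [this] at hP
      simp at hP
      exact hp.out.one_lt.ne hP
    obtain ⟨q, hq, hq1⟩ := h1
    have h2 : orderOf q = p := by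
      have h3 : orderOf (⟨q, hq⟩ : P) ∣ p := by rw [← hP]; exact orderOf_dvd_natCard _
      rw [Subgroup.orderOf_mk] at h3
      rcases (Nat.dvd_prime hp.out).mp h3 with h4 | h4
      · exact absurd (orderOf_eq_one_iff.mp h4) hq1
      · exact h4
    have h3 := (hLmem q).mp (hle hq)
    have h4 := orderOf_dvd_of_pow_eq_one h3.2
    rw [h2] at h4
    exact hlp h4
  -- squares
  have hsq : ∀ g : G, ¬ p ∣ orderOf g → g ^ 2 ∈ C → g ^ 2 ∈ L := by
    intro g hog hg
    apply hmemL _ hg
    intro h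
    exact hog (h.trans (orderOf_pow_dvd 2))
  -- elements outside of `C` with square in `C` act by inversion
  have hinv : ∀ g : G, g ∉ C → g ^ 2 ∈ C → ∀ q ∈ P, g * q * g⁻¹ = q⁻¹ := by
    intro g hg hg2 q hq
    have hfix : ∀ a ∈ P, g * a * g⁻¹ = a → a = 1 := by
      intro a ha hga
      by_contra ha1
      apply hg
      -- the fixed subgroup is everything
      have h1 : (⟨a, ha⟩ : P) ≠ 1 := fun h => ha1 (congrArg Subtype.val h)
      rw [hC, mem_centralizer_iff]
      intro b hb
      have h3 : (⟨b, hb⟩ : P) ∈ zpowers (⟨a, ha⟩ : P) := mem_zpowers_of_prime_card hP h1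
      obtain ⟨k, hk⟩ := mem_zpowers_iff.mp h3
      have h4 : a ^ k = b := congrArg Subtype.val hk
      have h5 : g * a = a * g := by
        have := congrArg (· * g) hga
        simpa using this
      rw [← h4]
      exact ((show Commute g a from h5).zpow_right k).eq.symm
    have hgq : g * q * g⁻¹ ∈ P := hPn.conj_mem q hq g
    have h6 : g ^ 2 * q = q * g ^ 2 := by
      rw [hC, mem_centralizer_iff] at hg2
      exact (hg2 q hq).symm
    have h7 := hfix (q * (g * q * g⁻¹)) (P.mul_mem hq hgq) (by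
      have h8 : g * (q * (g * q * g⁻¹)) * g⁻¹ = (g * q * g⁻¹) * (g ^ 2 * q * g⁻¹ * g⁻¹) := by
        rw [pow_two]; group
      rw [h8, h6]
      have h9 : q * g ^ 2 * g⁻¹ * g⁻¹ = q := by rw [pow_two]; group
      rw [h9]
      exact hPcomm _ hgq _ hq)
    exact (eq_inv_of_mul_eq_one_right h7)
  have hpair : ∀ g h : G, g ∉ C → h ∉ C → g ^ 2 ∈ C → h ^ 2 ∈ C → g * h ∈ C := by
    intro g h hg hh hg2 hh2
    rw [hC, mem_centralizer_iff]
    intro q hq
    have h1 := hinv g hg hg2 q⁻¹ (P.inv_mem hq)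
    have h2 := hinv h hh hh2 q hq
    have h3 : (g * h) * q * (g * h)⁻¹ = q := by
      have : (g * h) * q * (g * h)⁻¹ = g * (h * q * h⁻¹) * g⁻¹ := by group
      rw [this, h2, h1, inv_inv]
    exact (mul_inv_eq_iff_eq_mul.mp h3).symm
  -- finishing argument for a pair
  have hwL : w ∈ L := hmemL w hw ow
  have hfin : ∀ g h : G, g ∉ C → g ^ 2 ∈ L → (QuotientGroup.mk g : G ⧸ L) * QuotientGroup.mk h = 1 →
      (∀ e : G, e = x ∨ e = y ∨ e = z ∨ e = w → e = g ∨ e = h ∨ e ∈ L) → False := by
    intro g h hg hg2 hgh hcov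
    apply hPL
    have h1 : (QuotientGroup.mk g : G ⧸ L) ^ 2 = 1 := by
      rw [← QuotientGroup.mk_pow, QuotientGroup.eq_one_iff]; exact hg2
    have h2 : (QuotientGroup.mk h : G ⧸ L) = QuotientGroup.mk g := by
      have h3 : (QuotientGroup.mk g : G ⧸ L) * QuotientGroup.mk g = 1 := by rw [← pow_two]; exact h1
      exact mul_left_cancel (hgh.trans h3.symm)
    let K : Subgroup (G ⧸ L) := zpowers (QuotientGroup.mk g)
    have h4 : closure {x, y, z, w} ≤ K.comap (QuotientGroup.mk' L) := by
      rw [closure_le]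
      intro e he
      have he' : e = x ∨ e = y ∨ e = z ∨ e = w := by simpa using he
      rw [SetLike.mem_coe, mem_comap, QuotientGroup.mk'_apply]
      rcases hcov e he' with h5 | h5 | h5
      · rw [h5]; exact mem_zpowers _
      · rw [h5, h2]; exact mem_zpowers _
      · rw [(QuotientGroup.eq_one_iff e).mpr h5]; exact K.one_mem
    intro q hq
    have h5 : q ∈ K.comap (QuotientGroup.mk' L) := h4 (by rw [hgen]; exact mem_top _)
    rw [mem_comap, QuotientGroup.mk'_apply] at h5
    obtain ⟨k, hk⟩ := mem_zpowers_iff.mp h5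
    have h6 : (QuotientGroup.mk q : G ⧸ L) = 1 ∨ (QuotientGroup.mk q : G ⧸ L) = QuotientGroup.mk g := by
      rw [← hk]
      rcases Int.even_or_odd' k with ⟨j, hj | hj⟩
      · left
        rw [hj, zpow_mul, zpow_ofNat, h1, one_zpow]
      · right
        rw [hj, zpow_add, zpow_mul, zpow_ofNat, h1, one_zpow, one_mul, zpow_one]
    rcases h6 with h6 | h6
    · exact (QuotientGroup.eq_one_iff q).mp h6
    · exfalso
      apply hg
      have h7 := QuotientGroup.eq.mp h6
      have h8 : q⁻¹ * g ∈ C := hLC h7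
      have h9 : g = q * (q⁻¹ * g) := by group
      rw [h9]
      exact C.mul_mem (hPC hq) h8
  have hrelC : x * y * z ∈ C := by
    have : x * y * z = w⁻¹ := by
      rw [eq_inv_iff_mul_eq_one]; exact hrel
    rw [this]; exact C.inv_mem hw
  have hmk : (QuotientGroup.mk x : G ⧸ L) * QuotientGroup.mk y * QuotientGroup.mk z = 1 := by
    have h1 : (QuotientGroup.mk (x * y * z * w) : G ⧸ L) = 1 := by rw [hrel]; rfl
    rw [QuotientGroup.mk_mul, (QuotientGroup.eq_one_iff w).mpr hwL, mul_one, QuotientGroup.mk_mul,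
      QuotientGroup.mk_mul] at h1
    exact h1
  by_cases hxC : x ∈ C
  · by_cases hyC : y ∈ C
    · have hzC : z ∈ C := by
        have : z = (x * y)⁻¹ * (x * y * z) := by group
        rw [this]; exact C.mul_mem (C.inv_mem (C.mul_mem hxC hyC)) hrelC
      -- everything is in `L`
      apply hPL
      intro q _
      have h1 : closure {x, y, z, w} ≤ L := by
        rw [closure_le]
        intro e he
        have he' : e = x ∨ e = y ∨ e = z ∨ e = w := by simpa using he
        rcases he' with h | h | h | h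
        · rw [h]; exact hmemL x hxC ox
        · rw [h]; exact hmemL y hyC oy
        · rw [h]; exact hmemL z hzC oz
        · rw [h]; exact hwL
      exact h1 (by rw [hgen]; exact mem_top _)
    · -- pair `y, z`
      have hxL : x ∈ L := hmemL x hxC ox
      apply hfin y z hyC (hsq y oy hy)
      · rw [(QuotientGroup.eq_one_iff x).mpr hxL, one_mul] at hmk
        exact hmk
      · rintro e (h | h | h | h)
        · right; right; rw [h]; exact hxL
        · left; exact h
        · right; left; exact h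
        · right; right; rw [h]; exact hwL
  · by_cases hyC : y ∈ C
    · have hyL : y ∈ L := hmemL y hyC oy
      apply hfin x z hxC (hsq x ox hx)
      · rw [(QuotientGroup.eq_one_iff y).mpr hyL, mul_one] at hmk
        exact hmk
      · rintro e (h | h | h | h)
        · left; exact h
        · right; right; rw [h]; exact hyL
        · right; left; exact h
        · right; right; rw [h]; exact hwL
    · have hxy := hpair x y hxC hyC hx hy
      have hzC : z ∈ C := by
        have : z = (x * y)⁻¹ * (x * y * z) := by group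
        rw [this]; exact C.mul_mem (C.inv_mem hxy) hrelC
      have hzL : z ∈ L := hmemL z hzC oz
      apply hfin x y hxC (hsq x ox hx)
      · rw [(QuotientGroup.eq_one_iff z).mpr hzL, mul_one] at hmk
        exact hmk
      · rintro e (h | h | h | h)
        · left; exact h
        · right; left; exact h
        · right; right; rw [h]; exact hzL
        · right; right; rw [h]; exact hwL

end LemA

section CaseI

variable {G : Type} [Group G] [Finite G]

theorem big_fact : 168 < Nat.factorial 168 := Nat.lt_factorial_self (by norm_num)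

theorem p_big {p : ℕ} (hpQ : Nat.factorial 168 ∣ p + 1) : 168 ≤ p := by
  have h1 := Nat.le_of_dvd (Nat.succ_pos p) hpQ
  have := big_fact
  omega

theorem sq_central {p : ℕ} [hp : Fact p.Prime] (hpQ : Nat.factorial 168 ∣ p + 1)
    (P : Subgroup G) [hPn : P.Normal] (hP : Nat.card P = p) (g : G) (hg : orderOf g ≤ 168) :
    g ^ 2 ∈ centralizer (P : Set G) := by
  have hcyc : IsCyclic P := isCyclic_of_prime_card hP
  have h1 : (MulAut.conjNormal g : MulAut P) ^ orderOf g = 1 := by
    rw [← map_pow, pow_orderOf_eq_one, map_one]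
  have h2 : (MulAut.conjNormal g : MulAut P) ^ (p - 1) = 1 := by
    have h3 : Nat.card (MulAut P) = p - 1 := by
      rw [IsCyclic.card_mulAut, hP, Nat.totient_prime hp.out]
    rw [← h3]
    exact pow_card_eq_one'
  have hpos : 0 < orderOf g := orderOf_pos g
  have h3 : orderOf (MulAut.conjNormal g : MulAut P) ∣ 2 := by
    have h4 : orderOf (MulAut.conjNormal g : MulAut P) ∣ p - 1 := orderOf_dvd_of_pow_eq_one h2
    have h5 : orderOf (MulAut.conjNormal g : MulAut P) ∣ p + 1 :=
      ((orderOf_dvd_of_pow_eq_one h1).trans (Nat.dvd_factorial hpos hg)).trans hpQ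
    have h6 := Nat.dvd_sub h5 h4
    have h7 := hp.out.one_lt
    have h8 : p + 1 - (p - 1) = 2 := by omega
    rwa [h8] at h6
  have h4 : (MulAut.conjNormal (g ^ 2) : MulAut P) = 1 := by
    rw [map_pow]; exact orderOf_dvd_iff_pow_eq_one.mp h3
  rw [mem_centralizer_iff]
  intro q hq
  have h5 := congrArg (fun f : MulAut P => (f ⟨q, hq⟩ : G)) h4
  simp only [MulAut.conjNormal_apply, MulAut.one_apply] at h5
  exact (mul_inv_eq_iff_eq_mul.mp h5).symm

theorem caseI {p : ℕ} [hp : Fact p.Prime] (hpQ : Nat.factorial 168 ∣ p + 1) {N : ℕ}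
    (hN : Nat.card G = p * N) (hNp : N ≤ 168) (x y z w : G) (hrel : x * y * z * w = 1)
    (hgen : closure {x, y, z, w} = ⊤)
    (ox : orderOf x ≤ 168) (oy : orderOf y ≤ 168) (oz : orderOf z ≤ 168) (hw : w ^ 3 = 1) :
    False := by
  have hpb : 168 < p := by
    have h1 := p_big hpQ
    rcases h1.lt_or_eq with h | h
    · exact h
    · exfalso
      have := hp.out
      rw [← h] at this
      revert this; norm_num
  have hNpos : 0 < N := by
    rcases Nat.eq_zero_or_pos N with h | h
    · rw [h, mul_zero] at hN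
      exact absurd hN Nat.card_pos.ne'
    · exact h
  have hNn : ¬ p ∣ N := fun h => by
    have := Nat.le_of_dvd hNpos h
    omega
  obtain ⟨P⟩ : Nonempty (Sylow p G) := inferInstance
  have hcardP : Nat.card P = p := by
    rw [Sylow.card_eq_multiplicity, hN, Nat.factorization_mul hp.out.ne_zero hNpos.ne']
    simp [hp.out.factorization_self, Nat.factorization_eq_zero_of_not_dvd hNn]
  have hidx : (P : Subgroup G).index = N := by
    have h1 := (P : Subgroup G).card_mul_index
    have h2 : Nat.card (P : Subgroup G) = p := hcardP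
    rw [h2, hN] at h1
    exact Nat.eq_of_mul_eq_mul_left hp.out.pos h1
  have hns : Nat.card (Sylow p G) = 1 := by
    have h1 : Nat.card (Sylow p G) ∣ N := by rw [← hidx]; exact P.card_dvd_index
    have h2 := card_sylow_modEq_one p G
    have h3 := Nat.le_of_dvd hNpos h1
    have h4 : Nat.card (Sylow p G) % p = 1 % p := h2
    rw [Nat.mod_eq_of_lt (by omega), Nat.mod_eq_of_lt hp.out.one_lt] at h4
    exact h4
  have hsub : Subsingleton (Sylow p G) := (Nat.card_eq_one_iff_unique.mp hns).1
  have hPn : (P : Subgroup G).Normal := Sylow.normal_of_subsingleton P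
  have hnd : ∀ g : G, orderOf g ≤ 168 → ¬ p ∣ orderOf g := by
    intro g hg h
    have := Nat.le_of_dvd (orderOf_pos g) h
    omega
  have how : orderOf w ≤ 168 := by
    have := Nat.le_of_dvd (by norm_num) (orderOf_dvd_of_pow_eq_one hw)
    omega
  have hw2 := sq_central hpQ (P : Subgroup G) hcardP w how
  refine lemA (P : Subgroup G) hcardP ?_ x y z w hrel hgen (hnd x ox) (hnd y oy) (hnd z oz)
    (hnd w how) (sq_central hpQ _ hcardP x ox) (sq_central hpQ _ hcardP y oy)
    (sq_central hpQ _ hcardP z oz) ?_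
  · rw [hN, pow_two]
    intro h
    exact hNn (Nat.dvd_of_mul_dvd_mul_left hp.out.pos h)
  · have h1 : w = w ^ 2 * w ^ 2 := by
      have : w ^ 2 * w ^ 2 = w ^ 3 * w := by group
      rw [this, hw, one_mul]
    rw [h1]
    exact mul_mem hw2 hw2

end CaseI

section Core

variable {G : Type} [Group G] [Finite G]

/-- case of orders `2, 3, n` -/
theorem lemB (x y z : G) (hrel : x * y * z = 1) (hgen : closure {x, y, z} = ⊤) (hx : x ^ 2 = 1)
    (hy : y ^ 3 = 1) (e : ℕ) (he : (zpowers z).index = e) :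
    orderOf z ≤ 6 * Nat.factorial e := by
  set Z := (zpowers z).normalCore with hZ
  have hZn : Z.Normal := by rw [hZ]; infer_instance
  have hZle : Z ≤ zpowers z := normalCore_le _
  have hcz : (MulAut.conjNormal z : MulAut Z) = 1 := by
    ext ⟨q, hq⟩
    rw [MulAut.conjNormal_apply, MulAut.one_apply]
    simp only
    obtain ⟨k, hk⟩ := mem_zpowers_iff.mp (hZle hq)
    rw [← hk]
    group
  have hcx : (MulAut.conjNormal x : MulAut Z) = 1 := by
    have h1 : (MulAut.conjNormal x : MulAut Z) * MulAut.conjNormal y = 1 := by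
      have h2 := congrArg (MulAut.conjNormal : G →* MulAut Z) hrel
      rwa [map_mul, map_mul, hcz, mul_one, map_one] at h2
    have h2 : (MulAut.conjNormal x : MulAut Z) ^ 2 = 1 := by rw [← map_pow, hx, map_one]
    have h3 : (MulAut.conjNormal y : MulAut Z) ^ 3 = 1 := by rw [← map_pow, hy, map_one]
    have h4 : (MulAut.conjNormal y : MulAut Z) = (MulAut.conjNormal x : MulAut Z) := by
      have h5 : (MulAut.conjNormal x : MulAut Z) * MulAut.conjNormal x = 1 := by
        rw [← pow_two]; exact h2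
      exact mul_left_cancel (h1.trans h5.symm)
    rw [h4, pow_succ, h2, one_mul] at h3
    exact h3
  have hcy : (MulAut.conjNormal y : MulAut Z) = 1 := by
    have h2 := congrArg (MulAut.conjNormal : G →* MulAut Z) hrel
    rwa [map_mul, map_mul, hcz, mul_one, hcx, one_mul, map_one] at h2
  have hker : ∀ g : G, (MulAut.conjNormal g : MulAut Z) = 1 := by
    have h1 : closure {x, y, z} ≤ (MulAut.conjNormal : G →* MulAut Z).ker := by
      rw [closure_le]
      intro g hg
      have hg' : g = x ∨ g = y ∨ g = z := by simpa using hg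
      rcases hg' with h | h | h <;> rw [h]
      · exact hcx
      · exact hcy
      · exact hcz
    intro g
    have h2 : g ∈ closure {x, y, z} := by rw [hgen]; exact mem_top _
    exact h1 h2
  have hZc : Z ≤ center G := by
    intro q hq
    rw [mem_center_iff]
    intro g
    have h5 := congrArg (fun f : MulAut Z => (f ⟨q, hq⟩ : G)) (hker g)
    simp only [MulAut.conjNormal_apply, MulAut.one_apply] at h5
    exact (mul_inv_eq_iff_eq_mul.mp h5)
  -- index bound
  have hidx : Z.index ≤ Nat.factorial e := by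
    rw [hZ, normalCore_eq_ker, index_ker]
    have h1 : Nat.card (Equiv.Perm (G ⧸ zpowers z)) = Nat.factorial e := by
      rw [Nat.card_perm, ← he]; rfl
    rw [← h1]
    exact Nat.le_of_dvd Nat.card_pos (Subgroup.card_subgroup_dvd_card _)
  have hidx2 : (center G).index ≤ Nat.factorial e :=
    (Nat.le_of_dvd (Nat.pos_of_ne_zero Subgroup.index_ne_zero_of_finite)
      (Subgroup.index_dvd_of_le hZc)).trans hidx
  -- transfer
  set f := MonoidHom.transferCenterPow G with hf
  have hcomm : ∀ a b : G, Commute (f a) (f b) := by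
    intro a b
    apply Subtype.ext
    exact (mem_center_iff.mp (f b).2 _)
  have hfx : f x ^ 6 = 1 := by
    rw [← map_pow, show x ^ 6 = (x ^ 2) ^ 3 by group, hx, one_pow, map_one]
  have hfy : f y ^ 6 = 1 := by
    rw [← map_pow, show y ^ 6 = (y ^ 3) ^ 2 by group, hy, one_pow, map_one]
  have hfz : f z ^ 6 = 1 := by
    have h1 : f z = (f x * f y)⁻¹ := by
      rw [← map_mul, ← map_inv]
      congr 1
      exact eq_inv_of_mul_eq_one_right hrel
    rw [h1, inv_pow, (hcomm x y).mul_pow, hfx, hfy, one_mul, inv_one]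
  have hz : z ^ ((center G).index * 6) = 1 := by
    have h1 := congrArg Subtype.val hfz
    rw [Subgroup.coe_pow, hf, MonoidHom.transferCenterPow_apply, ← pow_mul] at h1
    exact h1
  have h2 : orderOf z ∣ (center G).index * 6 := orderOf_dvd_of_pow_eq_one hz
  have h3 := Nat.le_of_dvd (by
    have := Nat.pos_of_ne_zero (Subgroup.index_ne_zero_of_finite (H := center G))
    omega) h2
  calc orderOf z ≤ (center G).index * 6 := h3
    _ ≤ Nat.factorial e * 6 := Nat.mul_le_mul_right _ hidx2
    _ = 6 * Nat.factorial e := mul_comm _ _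

end Core

section Small

variable {H : Type} [Group H] [Finite H]

theorem index_le_of_reps (K : Subgroup H) (x y : H) (hgen : closure {x, y} = ⊤) (m : ℕ)
    (r : Fin m → H) (h0 : ∃ i, r i ∈ K) (hx : ∀ i, ∃ j, (r j)⁻¹ * (x * r i) ∈ K)
    (hy : ∀ i, ∃ j, (r j)⁻¹ * (y * r i) ∈ K) : K.index ≤ m := by
  classical
  set S : Set (H ⧸ K) := Set.range (fun i => (QuotientGroup.mk (r i) : H ⧸ K)) with hS
  have hfin : S.Finite := Set.finite_range _
  have hst : ∀ g : H, (∀ i, ∃ j, (r j)⁻¹ * (g * r i) ∈ K) → g ∈ MulAction.stabilizer H S := by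
    intro g hg
    rw [MulAction.mem_stabilizer_iff]
    have hsub : g • S ⊆ S := by
      rintro _ ⟨_, ⟨i, rfl⟩, rfl⟩
      obtain ⟨j, hj⟩ := hg i
      refine ⟨j, ?_⟩
      simp only
      rw [MulAction.Quotient.smul_mk]
      exact QuotientGroup.eq.mpr hj
    apply Set.eq_of_subset_of_ncard_le hsub _ hfin
    rw [Set.ncard_smul_set]
  have hall : ∀ g : H, g ∈ MulAction.stabilizer H S := by
    intro g
    have h1 : closure {x, y} ≤ MulAction.stabilizer H S := by
      rw [closure_le]
      intro g hg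
      have hg' : g = x ∨ g = y := by simpa using hg
      rcases hg' with h | h <;> rw [h]
      · exact hst x hx
      · exact hst y hy
    exact h1 (by rw [hgen]; exact mem_top _)
  have hsurj : Function.Surjective (fun i => (QuotientGroup.mk (r i) : H ⧸ K)) := by
    intro q
    obtain ⟨g, rfl⟩ := QuotientGroup.mk_surjective q
    obtain ⟨i, hi⟩ := h0
    have h2 : (QuotientGroup.mk (1 : H) : H ⧸ K) ∈ S := by
      refine ⟨i, ?_⟩
      simp only
      rw [QuotientGroup.eq, mul_one]
      exact K.inv_mem hi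
    have h3 : g • (QuotientGroup.mk (1 : H) : H ⧸ K) ∈ g • S := Set.smul_mem_smul_set h2
    rw [MulAction.mem_stabilizer_iff.mp (hall g), MulAction.Quotient.smul_mk, smul_eq_mul,
      mul_one] at h3
    exact h3
  have h4 := Nat.card_le_card_of_surjective _ hsurj
  rw [Nat.card_fin] at h4
  exact h4

theorem card_le_of_reps (x y : H) (hy4 : y ^ 4 = 1) (hgen : closure {x, y} = ⊤) (m : ℕ)
    (r : Fin m → H) (h0 : ∃ i, r i ∈ zpowers y) (hx : ∀ i, ∃ j, (r j)⁻¹ * (x * r i) ∈ zpowers y)
    (hy : ∀ i, ∃ j, (r j)⁻¹ * (y * r i) ∈ zpowers y) : Nat.card H ≤ 4 * m := by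
  have h1 := index_le_of_reps (zpowers y) x y hgen m r h0 hx hy
  have h2 : Nat.card (zpowers y) ≤ 4 := by
    rw [Nat.card_zpowers]
    exact Nat.le_of_dvd (by norm_num) (orderOf_dvd_of_pow_eq_one hy4)
  rw [← (zpowers y).card_mul_index]
  exact Nat.mul_le_mul h2 h1

theorem small1 (x y : H) (hy : y ^ 4 = 1) (hgen : closure {x, y} = ⊤)
    (hxy : x * y = 1) : Nat.card H ≤ 4 := by
  refine card_le_of_reps x y hy hgen 1 ![1] ⟨0, one_mem _⟩ ?_ ?_
  · intro i; fin_cases i
    refine ⟨0, ?_⟩
    simp only [Matrix.cons_val_zero, Fin.zero_eta, inv_one, one_mul, mul_one]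
    rw [eq_inv_of_mul_eq_one_left hxy]
    exact inv_mem (mem_zpowers y)
  · intro i; fin_cases i
    exact ⟨0, by simp⟩

theorem small2 (x y : H) (hx : x ^ 2 = 1) (hy : y ^ 4 = 1) (hgen : closure {x, y} = ⊤)
    (hxy : (x * y) ^ 2 = 1) : Nat.card H ≤ 8 := by
  have hxx : x * x = 1 := by rw [← pow_two]; exact hx
  have hxi : x⁻¹ = x := inv_eq_of_mul_eq_one_right hxx
  refine card_le_of_reps x y hy hgen 2 ![1, x] ⟨0, one_mem _⟩ ?_ ?_
  · intro i; fin_cases i
    · exact ⟨1, by simp⟩
    · exact ⟨0, by simp [hxx]⟩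
  · intro i; fin_cases i
    · exact ⟨0, by simp⟩
    · refine ⟨1, ?_⟩
      change x⁻¹ * (y * x) ∈ zpowers y
      have h1 : x⁻¹ * (y * x) = y⁻¹ := by
        rw [hxi, eq_inv_iff_mul_eq_one]
        calc x * (y * x) * y = (x * y) ^ 2 := by
              simp only [pow_succ, pow_zero, one_mul, mul_assoc]
          _ = 1 := hxy
      rw [h1]
      exact inv_mem (mem_zpowers y)

theorem small3 (x y : H) (hx : x ^ 2 = 1) (hy : y ^ 4 = 1) (hgen : closure {x, y} = ⊤)
    (hxy : (x * y) ^ 3 = 1) : Nat.card H ≤ 24 := by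
  have hxx : x * x = 1 := by rw [← pow_two]; exact hx
  have hxi : x⁻¹ = x := inv_eq_of_mul_eq_one_right hxx
  have hyK : y ∈ zpowers y := mem_zpowers y
  have hrel : x * y * x * y * x = y⁻¹ := by
    rw [eq_inv_iff_mul_eq_one]
    calc x * y * x * y * x * y = (x * y) ^ 3 := by
          simp only [pow_succ, pow_zero, one_mul, mul_assoc]
      _ = 1 := hxy
  have hy3 : y ^ 3 = y⁻¹ := by
    rw [eq_inv_iff_mul_eq_one, ← pow_succ]; exact hy
  have hxyx : x * y * x = y⁻¹ * x * y⁻¹ := by
    have h1 : x * y * x = (x * y * x * y * x) * (x⁻¹ * y⁻¹) := by group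
    rw [h1, hrel, hxi]; group
  refine card_le_of_reps x y hy hgen 6 ![1, x, y * x, y ^ 2 * x, y ^ 3 * x, x * y ^ 2 * x]
    ⟨0, one_mem _⟩ ?_ ?_
  · intro i; fin_cases i
    · exact ⟨1, by simp⟩
    · exact ⟨0, by simp [hxx]⟩
    · refine ⟨4, ?_⟩
      change (y ^ 3 * x)⁻¹ * (x * (y * x)) ∈ zpowers y
      have h1 : (y ^ 3 * x)⁻¹ * (x * (y * x)) = y⁻¹ := by
        rw [mul_inv_rev, hxi, hy3, inv_inv, ← hrel]; group
      rw [h1]; exact inv_mem hyK
    · refine ⟨5, ?_⟩
      change (x * y ^ 2 * x)⁻¹ * (x * (y ^ 2 * x)) ∈ zpowers y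
      have h1 : (x * y ^ 2 * x)⁻¹ * (x * (y ^ 2 * x)) = 1 := by group
      rw [h1]; exact one_mem _
    · refine ⟨2, ?_⟩
      change (y * x)⁻¹ * (x * (y ^ 3 * x)) ∈ zpowers y
      have h1 : (y * x)⁻¹ * (x * (y ^ 3 * x)) = y := by
        have h2 : y = (x * y * x * y * x)⁻¹ := by rw [hrel, inv_inv]
        conv_rhs => rw [h2]
        simp only [mul_inv_rev, hxi, hy3]; group
      rw [h1]; exact hyK
    · refine ⟨3, ?_⟩
      change (y ^ 2 * x)⁻¹ * (x * (x * y ^ 2 * x)) ∈ zpowers y
      have h1 : (y ^ 2 * x)⁻¹ * (x * (x * y ^ 2 * x)) = 1 := by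
        calc (y ^ 2 * x)⁻¹ * (x * (x * y ^ 2 * x)) = (y ^ 2 * x)⁻¹ * ((x * x) * (y ^ 2 * x)) := by
              group
          _ = 1 := by rw [hxx]; group
      rw [h1]; exact one_mem _
  · intro i; fin_cases i
    · exact ⟨0, by simp⟩
    · refine ⟨2, ?_⟩
      change (y * x)⁻¹ * (y * x) ∈ zpowers y
      rw [inv_mul_cancel]; exact one_mem _
    · refine ⟨3, ?_⟩
      change (y ^ 2 * x)⁻¹ * (y * (y * x)) ∈ zpowers y
      have h1 : (y ^ 2 * x)⁻¹ * (y * (y * x)) = 1 := by group
      rw [h1]; exact one_mem _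
    · refine ⟨4, ?_⟩
      change (y ^ 3 * x)⁻¹ * (y * (y ^ 2 * x)) ∈ zpowers y
      have h1 : (y ^ 3 * x)⁻¹ * (y * (y ^ 2 * x)) = 1 := by group
      rw [h1]; exact one_mem _
    · refine ⟨1, ?_⟩
      change x⁻¹ * (y * (y ^ 3 * x)) ∈ zpowers y
      have h1 : x⁻¹ * (y * (y ^ 3 * x)) = 1 := by
        calc x⁻¹ * (y * (y ^ 3 * x)) = x⁻¹ * (y ^ 4 * x) := by group
          _ = 1 := by rw [hy]; group
      rw [h1]; exact one_mem _
    · refine ⟨5, ?_⟩
      change (x * y ^ 2 * x)⁻¹ * (y * (x * y ^ 2 * x)) ∈ zpowers y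
      have h1 : (x * y ^ 2 * x)⁻¹ * (y * (x * y ^ 2 * x)) = y⁻¹ := by
        calc (x * y ^ 2 * x)⁻¹ * (y * (x * y ^ 2 * x))
            = x⁻¹ * (y ^ 2)⁻¹ * (x⁻¹ * y * x) * (y ^ 2 * x) := by group
          _ = x * (y ^ 2)⁻¹ * (x * y * x) * (y ^ 2 * x) := by rw [hxi]
          _ = x * (y ^ 2)⁻¹ * (y⁻¹ * x * y⁻¹) * (y ^ 2 * x) := by rw [hxyx]
          _ = x * (y ^ 3)⁻¹ * x * y * x := by group
          _ = x * y * x * y * x := by rw [hy3, inv_inv]
          _ = y⁻¹ := hrel
      rw [h1]; exact inv_mem hyK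

end Small

section CoreC

variable {G : Type} [Group G] [Finite G]

theorem lemC (x y z : G) (hrel : x * y * z = 1) (hgen : closure {x, y, z} = ⊤) (hx : x ^ 2 = 1)
    (hy : y ^ 4 = 1) (e : ℕ) (he : (zpowers z).index = e)
    (hcase : (e = 8 ∧ ∀ w, w ∣ orderOf z → w ∣ Nat.factorial e → w ∣ 2) ∨
      (e = 16 ∧ ∀ w, w ∣ orderOf z → w ∣ Nat.factorial e → w ∣ 3)) : False := by
  set Z := (zpowers z).normalCore with hZ
  have hZn : Z.Normal := by rw [hZ]; infer_instance
  have hZle : Z ≤ zpowers z := normalCore_le _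
  set w := orderOf (QuotientGroup.mk z : G ⧸ Z) with hw
  have hcard : Nat.card (G ⧸ Z) = w * e := by
    have h1 : (zpowers (QuotientGroup.mk z : G ⧸ Z)).index = e := by
      rw [← he, ← index_comap_of_surjective _ (QuotientGroup.mk'_surjective Z)]
      congr 1
      ext g
      rw [mem_comap, QuotientGroup.mk'_apply]
      constructor
      · intro h
        obtain ⟨k, hk⟩ := mem_zpowers_iff.mp h
        rw [← QuotientGroup.mk_zpow, QuotientGroup.eq] at hk
        have h2 : g = z ^ k * ((z ^ k)⁻¹ * g) := by group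
        rw [h2]
        exact mul_mem (zpow_mem (mem_zpowers z) k) (hZle hk)
      · intro h
        obtain ⟨k, hk⟩ := mem_zpowers_iff.mp h
        rw [← hk, QuotientGroup.mk_zpow]
        exact zpow_mem (mem_zpowers _) k
    rw [← (zpowers (QuotientGroup.mk z : G ⧸ Z)).card_mul_index, h1, Nat.card_zpowers]
  have hwz : w ∣ orderOf z := orderOf_map_dvd (QuotientGroup.mk' Z) z
  have hwf : w ∣ Nat.factorial e := by
    have h1 : w ∣ Nat.card (G ⧸ Z) := orderOf_dvd_natCard _
    refine h1.trans ?_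
    have h2 : Nat.card (G ⧸ Z) = Z.index := rfl
    rw [h2, hZ, normalCore_eq_ker, index_ker]
    have h3 : Nat.card (Equiv.Perm (G ⧸ zpowers z)) = Nat.factorial e := by
      rw [Nat.card_perm, ← he]; rfl
    rw [← h3]
    exact Subgroup.card_subgroup_dvd_card _
  have hwpos : 0 < w := orderOf_pos _
  set X : G ⧸ Z := QuotientGroup.mk x with hX
  set Y : G ⧸ Z := QuotientGroup.mk y with hY
  have hXY : X * Y = (QuotientGroup.mk z : G ⧸ Z)⁻¹ := by
    rw [eq_inv_iff_mul_eq_one, hX, hY, ← QuotientGroup.mk_mul, ← QuotientGroup.mk_mul, hrel]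
    rfl
  have hX2 : X ^ 2 = 1 := by rw [hX, ← QuotientGroup.mk_pow, hx]; rfl
  have hY4 : Y ^ 4 = 1 := by rw [hY, ← QuotientGroup.mk_pow, hy]; rfl
  have hXYw : (X * Y) ^ w = 1 := by rw [hXY, inv_pow, hw, pow_orderOf_eq_one, inv_one]
  have hgen' : closure {X, Y} = ⊤ := by
    rw [eq_top_iff]
    intro g _
    obtain ⟨g, rfl⟩ := QuotientGroup.mk'_surjective Z g
    have h1 : closure {x, y, z} ≤ (closure {X, Y}).comap (QuotientGroup.mk' Z) := by
      rw [closure_le]
      intro g hg
      have hg' : g = x ∨ g = y ∨ g = z := by simpa using hg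
      rw [SetLike.mem_coe, mem_comap, QuotientGroup.mk'_apply]
      have hXm : X ∈ closure {X, Y} := subset_closure (by simp)
      have hYm : Y ∈ closure {X, Y} := subset_closure (by simp)
      rcases hg' with h | h | h <;> rw [h]
      · exact hXm
      · exact hYm
      · have : (QuotientGroup.mk z : G ⧸ Z) = (X * Y)⁻¹ := by rw [hXY, inv_inv]
        rw [this]
        exact inv_mem (mul_mem hXm hYm)
    exact h1 (by rw [hgen]; exact mem_top _)
  have hw1 : w = 1 → Nat.card (G ⧸ Z) ≤ 4 := by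
    intro h
    rw [h, pow_one] at hXYw
    exact small1 X Y hY4 hgen' hXYw
  rcases hcase with ⟨he8, hd⟩ | ⟨he16, hd⟩
  · have h1 := hd w hwz hwf
    rcases (Nat.dvd_prime Nat.prime_two).mp h1 with h2 | h2
    · have := hw1 h2
      rw [hcard, h2, he8] at this
      omega
    · rw [h2] at hXYw
      have := small2 X Y hX2 hY4 hgen' hXYw
      rw [hcard, h2, he8] at this
      omega
  · have h1 := hd w hwz hwf
    rcases (Nat.dvd_prime Nat.prime_three).mp h1 with h2 | h2
    · have := hw1 h2
      rw [hcard, h2, he16] at this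
      omega
    · rw [h2] at hXYw
      have := small3 X Y hX2 hY4 hgen' hXYw
      rw [hcard, h2, he16] at this
      omega

end CoreC

theorem order_ge {G : Type} [Group G] [Finite G] {x : G} (hx : x ≠ 1) : 2 ≤ orderOf x := by
  have h1 := orderOf_pos x
  have h2 : orderOf x ≠ 1 := fun h => hx (orderOf_eq_one_iff.mp h)
  omega

theorem inv_le_of_le {n m : ℕ} (hn : 0 < n) (h : n ≤ m) : 1 / (m : ℚ) ≤ 1 / (n : ℚ) := by
  apply one_div_le_one_div_of_le
  · exact_mod_cast hn
  · exact_mod_cast h

theorem inv_pos' {m : ℕ} (h : 0 < m) : 0 < 1 / (m : ℚ) := by positivity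

theorem sum_ge {r : ℕ} (m : Fin r → ℕ) (hm : ∀ i, 2 ≤ m i) :
    (r : ℚ) / 2 ≤ ∑ i : Fin r, (1 - 1 / (m i : ℚ)) := by
  have h1 : ∀ i ∈ (Finset.univ : Finset (Fin r)), (1 / 2 : ℚ) ≤ 1 - 1 / (m i : ℚ) := by
    intro i _
    have := inv_le_of_le (by norm_num) (hm i)
    push_cast at this
    linarith
  have h2 := Finset.sum_le_sum h1
  simp only [Finset.sum_const, Finset.card_univ, Fintype.card_fin, nsmul_eq_mul] at h2
  linarith

theorem sum_lt {r : ℕ} (m : Fin r → ℕ) (hm : ∀ i, 2 ≤ m i) :
    ∑ i : Fin r, (1 - 1 / (m i : ℚ)) ≤ r := by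
  have h1 : ∀ i ∈ (Finset.univ : Finset (Fin r)), 1 - 1 / (m i : ℚ) ≤ 1 := by
    intro i _
    have := inv_pos' (m := m i) (by have := hm i; omega)
    linarith
  have h2 := Finset.sum_le_sum h1
  simp only [Finset.sum_const, Finset.card_univ, Fintype.card_fin, nsmul_eq_mul, mul_one] at h2
  exact h2

/-- reduction to three or four periods in genus zero -/
theorem reduce {h r : ℕ} (m : Fin r → ℕ) (hm : ∀ i, 2 ≤ m i)
    (h0 : 0 < 2 * (h : ℚ) - 2 + ∑ i : Fin r, (1 - 1 / (m i : ℚ)))
    (h1 : 2 * (h : ℚ) - 2 + ∑ i : Fin r, (1 - 1 / (m i : ℚ)) < 1 / 2) :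
    h = 0 ∧ (r = 3 ∨ r = 4) := by
  have hs := sum_ge m hm
  have hl := sum_lt m hm
  have hr0 : (0 : ℚ) ≤ (r : ℚ) := Nat.cast_nonneg r
  have hh : h = 0 := by
    by_contra hh
    have hh1 : 1 ≤ h := Nat.one_le_iff_ne_zero.mpr hh
    have hh2 : (1 : ℚ) ≤ (h : ℚ) := by exact_mod_cast hh1
    have hr : r = 0 := by
      by_contra hr
      have hr1 : (1 : ℚ) ≤ (r : ℚ) := by exact_mod_cast Nat.one_le_iff_ne_zero.mpr hr
      linarith
    subst hr
    simp only [Finset.univ_eq_empty, Finset.sum_empty, add_zero] at h0 h1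
    have hh3 : 1 < h := by
      have : (1 : ℚ) < (h : ℚ) := by linarith
      exact_mod_cast this
    have hh4 : (2 : ℚ) ≤ (h : ℚ) := by exact_mod_cast hh3
    linarith
  refine ⟨hh, ?_⟩
  subst hh
  rw [Nat.cast_zero] at h0 h1
  have hr5 : r < 5 := by
    by_contra hr
    push Not at hr
    have : (5 : ℚ) ≤ (r : ℚ) := by exact_mod_cast hr
    linarith
  have hr2 : 2 < r := by
    have : (2 : ℚ) < (r : ℚ) := by linarith
    exact_mod_cast this
  omega

theorem four {a b c d : ℕ} (ha : 2 ≤ a) (hb : 2 ≤ b) (hc : 2 ≤ c) (hd : 2 ≤ d)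
    (h : 1 / (a : ℚ) + 1 / (b : ℚ) + 1 / (c : ℚ) + 1 / (d : ℚ) < 2) :
    1 / (a : ℚ) + 1 / (b : ℚ) + 1 / (c : ℚ) + 1 / (d : ℚ) ≤ 11 / 6 := by
  have key : ∀ n : ℕ, 2 ≤ n → n = 2 ∨ (1 / (n : ℚ) ≤ 1 / 3) := by
    intro n hn
    rcases hn.lt_or_eq with h | h
    · right
      have := inv_le_of_le (n := 3) (by norm_num) h
      push_cast at this
      exact this
    · left; exact h.symm
  have key2 : ∀ n : ℕ, 2 ≤ n → 1 / (n : ℚ) ≤ 1 / 2 := by
    intro n hn
    have := inv_le_of_le (n := 2) (by norm_num) hn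
    push_cast at this
    exact this
  have ka := key2 a ha
  have kb := key2 b hb
  have kc := key2 c hc
  have kd := key2 d hd
  rcases key a ha with h1 | h1
  · rcases key b hb with h2 | h2
    · rcases key c hc with h3 | h3
      · rcases key d hd with h4 | h4
        · subst h1; subst h2; subst h3; subst h4
          norm_num at h
        · linarith
      · linarith
    · linarith
  · linarith

theorem four' {a b c d : ℕ} (ha : 2 ≤ a) (hb : 2 ≤ b) (hc : 2 ≤ c) (hd : 2 ≤ d)
    (h : 1 / (a : ℚ) + 1 / (b : ℚ) + 1 / (c : ℚ) + 1 / (d : ℚ) < 2)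
    (h' : 7 / 4 < 1 / (a : ℚ) + 1 / (b : ℚ) + 1 / (c : ℚ) + 1 / (d : ℚ)) :
    (a = 3 ∧ b = 2 ∧ c = 2 ∧ d = 2) ∨ (a = 2 ∧ b = 3 ∧ c = 2 ∧ d = 2) ∨
      (a = 2 ∧ b = 2 ∧ c = 3 ∧ d = 2) ∨ (a = 2 ∧ b = 2 ∧ c = 2 ∧ d = 3) := by
  have key : ∀ n : ℕ, 2 ≤ n → n = 2 ∨ n = 3 ∨ (1 / (n : ℚ) ≤ 1 / 4) := by
    intro n hn
    rcases hn.lt_or_eq with h | h
    · right
      rcases (Nat.succ_le_of_lt h).lt_or_eq with h1 | h1
      · right
        have := inv_le_of_le (n := 4) (by norm_num) h1
        push_cast at this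
        exact this
      · left; exact h1.symm
    · left; exact h.symm
  have key2 : ∀ n : ℕ, 2 ≤ n → 1 / (n : ℚ) ≤ 1 / 2 := by
    intro n hn
    have := inv_le_of_le (n := 2) (by norm_num) hn
    push_cast at this
    exact this
  have ka := key2 a ha
  have kb := key2 b hb
  have kc := key2 c hc
  have kd := key2 d hd
  rcases key a ha with h1 | h1 | h1
  · rcases key b hb with h2 | h2 | h2
    · rcases key c hc with h3 | h3 | h3
      · rcases key d hd with h4 | h4 | h4
        · subst h1; subst h2; subst h3; subst h4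
          norm_num at h
        · right; right; right; exact ⟨h1, h2, h3, h4⟩
        · linarith
      · rcases key d hd with h4 | h4 | h4
        · right; right; left; exact ⟨h1, h2, h3, h4⟩
        · subst h1; subst h2; subst h3; subst h4
          norm_num at h'
        · linarith
      · linarith
    · rcases key c hc with h3 | h3 | h3
      · rcases key d hd with h4 | h4 | h4
        · right; left; exact ⟨h1, h2, h3, h4⟩
        · subst h1; subst h2; subst h3; subst h4
          norm_num at h'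
        · linarith
      · subst h1; subst h2; subst h3
        push_cast at h'
        linarith
      · linarith
    · linarith
  · rcases key b hb with h2 | h2 | h2
    · rcases key c hc with h3 | h3 | h3
      · rcases key d hd with h4 | h4 | h4
        · left; exact ⟨h1, h2, h3, h4⟩
        · subst h1; subst h2; subst h3; subst h4
          norm_num at h'
        · linarith
      · subst h1; subst h2; subst h3
        push_cast at h'
        linarith
      · linarith
    · subst h1; subst h2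
      push_cast at h'
      linarith
    · linarith
  · linarith

/-- Hurwitz bound for sorted triples -/
theorem tri {a b c : ℕ} (ha : 2 ≤ a) (hab : a ≤ b) (hbc : b ≤ c)
    (h : 1 / (a : ℚ) + 1 / (b : ℚ) + 1 / (c : ℚ) < 1) :
    1 / (a : ℚ) + 1 / (b : ℚ) + 1 / (c : ℚ) ≤ 41 / 42 := by
  have kb : 1 / (b : ℚ) ≤ 1 / (a : ℚ) := inv_le_of_le (by omega) hab
  have kc : 1 / (c : ℚ) ≤ 1 / (b : ℚ) := inv_le_of_le (by omega) hbc
  have lb : ∀ n m : ℕ, 0 < n → n ≤ m → 1 / (m : ℚ) ≤ 1 / (n : ℚ) := fun n m h1 h2 =>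
    inv_le_of_le h1 h2
  have pc : 0 < 1 / (c : ℚ) := inv_pos' (by omega)
  by_cases h4 : 4 ≤ a
  · have := lb 4 a (by norm_num) h4
    push_cast at this
    linarith
  have ha' : a = 2 ∨ a = 3 := by omega
  rcases ha' with rfl | rfl
  · by_cases h5 : 5 ≤ b
    · have := lb 5 b (by norm_num) h5
      push_cast at this ⊢
      linarith
    have hb' : b = 2 ∨ b = 3 ∨ b = 4 := by omega
    rcases hb' with rfl | rfl | rfl
    · push_cast at h
      linarith
    · have hc : 7 ≤ c := by
        by_contra hc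
        have := lb c 6 (by omega) (by omega)
        push_cast at this h
        linarith
      have := lb 7 c (by norm_num) hc
      push_cast at this ⊢
      linarith
    · have hc : 5 ≤ c := by
        by_contra hc
        have := lb c 4 (by omega) (by omega)
        push_cast at this h
        linarith
      have := lb 5 c (by norm_num) hc
      push_cast at this ⊢
      linarith
  · by_cases h4' : 4 ≤ b
    · have := lb 4 b (by norm_num) h4'
      push_cast at this ⊢
      linarith
    have hb' : b = 3 := by omega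
    subst hb'
    have hc : 4 ≤ c := by
      by_contra hc
      have := lb c 3 (by omega) (by omega)
      push_cast at this h
      linarith
    have := lb 4 c (by norm_num) hc
    push_cast at this ⊢
    linarith

theorem tri' {a b c : ℕ} (ha : 2 ≤ a) (hab : a ≤ b) (hbc : b ≤ c)
    (h : 1 / (a : ℚ) + 1 / (b : ℚ) + 1 / (c : ℚ) < 1)
    (h' : 3 / 4 < 1 / (a : ℚ) + 1 / (b : ℚ) + 1 / (c : ℚ)) :
    (a = 2 ∧ b = 3) ∨ (a = 2 ∧ b = 4) ∨ (c ≤ 19) := by
  have kb : 1 / (b : ℚ) ≤ 1 / (a : ℚ) := inv_le_of_le (by omega) hab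
  have kc : 1 / (c : ℚ) ≤ 1 / (b : ℚ) := inv_le_of_le (by omega) hbc
  have lb : ∀ n m : ℕ, 0 < n → n ≤ m → 1 / (m : ℚ) ≤ 1 / (n : ℚ) := fun n m h1 h2 =>
    inv_le_of_le h1 h2
  have pc : 0 < 1 / (c : ℚ) := inv_pos' (by omega)
  by_cases hc : c ≤ 19
  · right; right; exact hc
  have hc20 := lb 20 c (by norm_num) (by omega)
  push_cast at hc20
  by_cases h4 : 4 ≤ a
  · have := lb 4 a (by norm_num) h4
    push_cast at this
    linarith
  have ha' : a = 2 ∨ a = 3 := by omega
  rcases ha' with rfl | rfl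
  · by_cases h5 : 5 ≤ b
    · have := lb 5 b (by norm_num) h5
      push_cast at this h'
      linarith
    have hb' : b = 2 ∨ b = 3 ∨ b = 4 := by omega
    rcases hb' with rfl | rfl | rfl
    · push_cast at h
      linarith
    · left; exact ⟨rfl, rfl⟩
    · right; left; exact ⟨rfl, rfl⟩
  · have := lb 3 b (by norm_num) hab
    push_cast at this h'
    linarith

section Trip

variable {G : Type} [Group G]

/-- product one generating triples -/
def Trip (x y z : G) : Prop := x * y * z = 1 ∧ closure {x, y, z} = ⊤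

theorem Trip.rot {x y z : G} (h : Trip x y z) : Trip y z x := by
  refine ⟨?_, ?_⟩
  · have h1 : y * z * x = x⁻¹ * (x * y * z) * x := by group
    rw [h1, h.1]; group
  · rw [← h.2]; congr 1
    ext g; simp only [Set.mem_insert_iff, Set.mem_singleton_iff]; tauto

theorem Trip.swap {x y z : G} (h : Trip x y z) : Trip y (y⁻¹ * x * y) z := by
  refine ⟨?_, ?_⟩
  · have h1 : y * (y⁻¹ * x * y) * z = x * y * z := by group
    rw [h1, h.1]
  · rw [eq_top_iff, ← h.2, closure_le]
    intro g hg
    have hg' : g = x ∨ g = y ∨ g = z := by simpa using hg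
    have hy : y ∈ closure {y, y⁻¹ * x * y, z} := subset_closure (by simp)
    have hx : y⁻¹ * x * y ∈ closure {y, y⁻¹ * x * y, z} := subset_closure (by simp)
    have hz : z ∈ closure {y, y⁻¹ * x * y, z} := subset_closure (by simp)
    rcases hg' with h | h | h <;> rw [h]
    · have h2 : y * (y⁻¹ * x * y) * y⁻¹ = x := by group
      have h3 := mul_mem (mul_mem hy hx) (inv_mem hy)
      rwa [h2] at h3
    · exact hy
    · exact hz

theorem order_conj (x y : G) : orderOf (y⁻¹ * x * y) = orderOf x := by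
  have h1 : y⁻¹ * x * y = (MulAut.conj y⁻¹) x := by simp
  rw [h1]
  exact MulEquiv.orderOf_eq _ x

/-- sorted version of a triple -/
theorem sorted {x y z : G} (h : Trip x y z) : ∃ x' y' z' : G, Trip x' y' z' ∧
    orderOf x' ≤ orderOf y' ∧ orderOf y' ≤ orderOf z' ∧
    (min (orderOf x) (min (orderOf y) (orderOf z)) ≤ orderOf x') ∧
    1 / (orderOf x' : ℚ) + 1 / (orderOf y' : ℚ) + 1 / (orderOf z' : ℚ) =
      1 / (orderOf x : ℚ) + 1 / (orderOf y : ℚ) + 1 / (orderOf z : ℚ) := by
  rcases le_total (orderOf x) (orderOf y) with h1 | h1 <;>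
  rcases le_total (orderOf y) (orderOf z) with h2 | h2 <;>
  rcases le_total (orderOf x) (orderOf z) with h3 | h3
  · exact ⟨x, y, z, h, h1, h2, by omega, rfl⟩
  · exact ⟨x, y, z, h, h1, h2, by omega, rfl⟩
  · -- x ≤ z ≤ y
    refine ⟨x, z, z⁻¹ * y * z, h.rot.swap.rot.rot, h3, ?_, by omega, ?_⟩
    · rw [order_conj]; exact h2
    · rw [order_conj]; ring
  · -- z ≤ x ≤ y
    exact ⟨z, x, y, h.rot.rot, h3, h1, by omega, by ring⟩
  · -- y ≤ x ≤ z
    refine ⟨y, y⁻¹ * x * y, z, h.swap, ?_, ?_, by omega, ?_⟩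
    · rw [order_conj]; exact h1
    · rw [order_conj]; exact h3
    · rw [order_conj]; ring
  · -- y ≤ z ≤ x
    exact ⟨y, z, x, h.rot, h2, h3, by omega, by ring⟩
  · refine ⟨z, z⁻¹ * y * z, x, h.rot.swap, ?_, ?_, by omega, ?_⟩
    · rw [order_conj]; exact h2
    · rw [order_conj]; exact h1
    · rw [order_conj]; ring
  · refine ⟨z, z⁻¹ * y * z, x, h.rot.swap, ?_, ?_, by omega, ?_⟩
    · rw [order_conj]; exact h2
    · rw [order_conj]; exact h1
    · rw [order_conj]; ring

end Trip

section Extract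

variable {G : Type} [Group G]

theorem vec3 (v : GeneratingVector G 0 3) : Trip (v.c 0) (v.c 1) (v.c 2) := by
  refine ⟨?_, ?_⟩
  · have h := v.prod_eq_one
    simpa [List.ofFn_succ, mul_assoc] using h
  · have h := v.closure_eq_top
    rw [← h]
    congr 1
    ext g
    simp only [Set.mem_insert_iff, Set.mem_singleton_iff, Set.mem_union, Set.mem_range]
    constructor
    · rintro (h | h | h)
      · exact Or.inr ⟨0, h.symm⟩
      · exact Or.inr ⟨1, h.symm⟩
      · exact Or.inr ⟨2, h.symm⟩
    · rintro ((⟨i, _⟩ | ⟨i, _⟩) | ⟨i, hi⟩)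
      · exact i.elim0
      · exact i.elim0
      · fin_cases i
        · exact Or.inl hi.symm
        · exact Or.inr (Or.inl hi.symm)
        · exact Or.inr (Or.inr hi.symm)

theorem vec4 (v : GeneratingVector G 0 4) : v.c 0 * v.c 1 * v.c 2 * v.c 3 = 1 ∧
    closure {v.c 0, v.c 1, v.c 2, v.c 3} = ⊤ := by
  refine ⟨?_, ?_⟩
  · have h := v.prod_eq_one
    simpa [List.ofFn_succ, mul_assoc] using h
  · have h := v.closure_eq_top
    rw [← h]
    congr 1
    ext g
    simp only [Set.mem_insert_iff, Set.mem_singleton_iff, Set.mem_union, Set.mem_range]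
    constructor
    · rintro (h | h | h | h)
      · exact Or.inr ⟨0, h.symm⟩
      · exact Or.inr ⟨1, h.symm⟩
      · exact Or.inr ⟨2, h.symm⟩
      · exact Or.inr ⟨3, h.symm⟩
    · rintro ((⟨i, _⟩ | ⟨i, _⟩) | ⟨i, hi⟩)
      · exact i.elim0
      · exact i.elim0
      · fin_cases i
        · exact Or.inl hi.symm
        · exact Or.inr (Or.inl hi.symm)
        · exact Or.inr (Or.inr (Or.inl hi.symm))
        · exact Or.inr (Or.inr (Or.inr hi.symm))

theorem rot4 {x y z w : G} (h : x * y * z * w = 1 ∧ closure {x, y, z, w} = ⊤) :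
    y * z * w * x = 1 ∧ closure {y, z, w, x} = ⊤ := by
  refine ⟨?_, ?_⟩
  · have h1 : y * z * w * x = x⁻¹ * (x * y * z * w) * x := by group
    rw [h1, h.1]; group
  · rw [← h.2]; congr 1
    ext g; simp only [Set.mem_insert_iff, Set.mem_singleton_iff]; tauto

end Extract

variable {G : Type} [Group G]

/-- Hurwitz's bound -/
theorem hurwitz {g : ℕ} (hg : 2 ≤ g) (hact : ActsOnGenus G g) : Nat.card G ≤ 84 * (g - 1) := by
  obtain ⟨hfin, h, r, v, hRH⟩ := hact
  have hm : ∀ i, 2 ≤ orderOf (v.c i) := fun i => order_ge (v.c_ne_one i)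
  have hcard : (0 : ℚ) < (Nat.card G : ℚ) := by exact_mod_cast Nat.card_pos
  have hg' : (2 : ℚ) ≤ (g : ℚ) := by exact_mod_cast hg
  set μ : ℚ := 2 * (h : ℚ) - 2 + ∑ i : Fin r, (1 - 1 / (orderOf (v.c i) : ℚ)) with hμ
  have hμ0 : 0 < μ := by
    by_contra hcon
    push Not at hcon
    have : (Nat.card G : ℚ) * μ ≤ 0 := mul_nonpos_of_nonneg_of_nonpos hcard.le hcon
    linarith
  have hμ1 : 1 / 42 ≤ μ := by
    by_cases h1 : μ < 1 / 2
    · obtain ⟨rfl, hr⟩ := reduce (fun i => orderOf (v.c i)) hm hμ0 h1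
      rcases hr with rfl | rfl
      · rw [Fin.sum_univ_three] at hμ
        obtain ⟨x, y, z, -, hxy, hyz, hmin, hsum⟩ := sorted (vec3 v)
        have hx2 : 2 ≤ orderOf x := le_trans (by
          have := hm 0; have := hm 1; have := hm 2; omega) hmin
        have h2 := tri hx2 hxy hyz (by
          rw [hsum]; rw [hμ] at hμ0; push_cast at hμ0; linarith)
        rw [hsum] at h2
        rw [hμ]; push_cast; linarith
      · rw [Fin.sum_univ_four] at hμ
        have h2 := four (hm 0) (hm 1) (hm 2) (hm 3) (by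
          rw [hμ] at hμ0; push_cast at hμ0; linarith)
        rw [hμ]; push_cast; linarith
    · linarith
  have h3 : (Nat.card G : ℚ) * (1 / 42) ≤ 2 * (g : ℚ) - 2 := by
    rw [hRH]; exact mul_le_mul_of_nonneg_left hμ1 hcard.le
  have h4 : (Nat.card G : ℚ) ≤ 84 * ((g : ℚ) - 1) := by linarith
  have h5 : ((g - 1 : ℕ) : ℚ) = (g : ℚ) - 1 := by
    rw [Nat.cast_sub (by omega)]; norm_num
  rw [← h5] at h4
  exact_mod_cast h4

theorem fact_big : 25 * Nat.factorial 24 ≤ Nat.factorial 168 := by
  have h1 : 25 * Nat.factorial 24 = Nat.factorial 25 := (Nat.factorial_succ 24).symm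
  rw [h1]
  exact Nat.factorial_le (by norm_num)

theorem fact_24 : 40320 ≤ Nat.factorial 24 := by
  have h1 : Nat.factorial 8 = 40320 := by decide
  rw [← h1]
  exact Nat.factorial_le (by norm_num)

theorem nat_eq {E P a b c : ℕ} (ha : 0 < a) (hb : 0 < b) (hc : 0 < c)
    (h : (E : ℚ) * (1 - (1 / (a : ℚ) + 1 / (b : ℚ) + 1 / (c : ℚ))) = (P : ℚ)) :
    E * (a * b * c) = P * (a * b * c) + E * (b * c + a * c + a * b) := by
  have ha' : (a : ℚ) ≠ 0 := by exact_mod_cast ha.ne'
  have hb' : (b : ℚ) ≠ 0 := by exact_mod_cast hb.ne'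
  have hc' : (c : ℚ) ≠ 0 := by exact_mod_cast hc.ne'
  have h1 : (E : ℚ) * (a * b * c) = P * (a * b * c) + E * (b * c + a * c + a * b) := by
    rw [← h]; field_simp; ring
  exact_mod_cast h1

theorem alg1 (p N c : ℕ)
    (h : p * N * (2 * 3 * c) = 4 * p * (2 * 3 * c) + p * N * (3 * c + 2 * c + 2 * 3)) :
    p * (N * c) = p * (24 * c + 6 * N) := by nlinarith

theorem alg2 (p N c : ℕ)
    (h : p * N * (2 * 4 * c) = 4 * p * (2 * 4 * c) + p * N * (4 * c + 2 * c + 2 * 4)) :
    (2 * p) * (N * c) = (2 * p) * (16 * c + 4 * N) := by nlinarith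

theorem alg3 (p e c : ℕ)
    (h : c * e * (2 * 3 * c) = 4 * p * (2 * 3 * c) + c * e * (3 * c + 2 * c + 2 * 3)) :
    c * (e * c) = c * (24 * p + 6 * e) := by nlinarith

theorem alg4 (p e c : ℕ)
    (h : c * e * (2 * 4 * c) = 4 * p * (2 * 4 * c) + c * e * (4 * c + 2 * c + 2 * 4)) :
    (2 * c) * (e * c) = (2 * c) * (16 * p + 4 * e) := by nlinarith

/-- The three-period case. -/
theorem three [Finite G] {p : ℕ} [hp : Fact p.Prime] (hpQ : Nat.factorial 168 ∣ p + 1)
    (x y z : G) (ht : Trip x y z) (h2 : 2 ≤ orderOf x) (hxy : orderOf x ≤ orderOf y)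
    (hyz : orderOf y ≤ orderOf z)
    (hRH : (Nat.card G : ℚ) * (1 - (1 / (orderOf x : ℚ) + 1 / (orderOf y : ℚ) +
      1 / (orderOf z : ℚ))) = ((4 * p : ℕ) : ℚ))
    (hbig : 16 * (p + 1) < Nat.card G) (hsmall : Nat.card G ≤ 168 * p) : False := by
  have hpb := Nat.le_of_dvd (Nat.succ_pos p) hpQ
  have hfb := fact_big
  have hf24 := fact_24
  have hp0 := hp.out.pos
  have hpn : ∀ n : ℕ, 0 < n → n < p → ¬ p ∣ n := fun n hn hnp hd => by
    have := Nat.le_of_dvd hn hd
    omega
  have hcard : (0 : ℚ) < (Nat.card G : ℚ) := by exact_mod_cast Nat.card_pos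
  have hcardn : 0 < Nat.card G := Nat.card_pos
  set a := orderOf x with ha
  set b := orderOf y with hb
  set c := orderOf z with hc
  set E := Nat.card G with hE
  have hs1 : 1 / (a : ℚ) + 1 / (b : ℚ) + 1 / (c : ℚ) < 1 := by
    by_contra hcon
    push Not at hcon
    have h3 : (E : ℚ) * (1 - (1 / (a : ℚ) + 1 / (b : ℚ) + 1 / (c : ℚ))) ≤ 0 :=
      mul_nonpos_of_nonneg_of_nonpos hcard.le (by linarith)
    have h4 : (0 : ℚ) < ((4 * p : ℕ) : ℚ) := by exact_mod_cast (by omega : 0 < 4 * p)
    linarith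
  have hs2 : 3 / 4 < 1 / (a : ℚ) + 1 / (b : ℚ) + 1 / (c : ℚ) := by
    by_contra hcon
    push Not at hcon
    have h3 : (E : ℚ) * (1 / 4) ≤ ((4 * p : ℕ) : ℚ) := by
      rw [← hRH]
      exact mul_le_mul_of_nonneg_left (by linarith) hcard.le
    have h4 : (E : ℚ) ≤ ((16 * p : ℕ) : ℚ) := by push_cast at h3 ⊢; linarith
    have h5 : E ≤ 16 * p := by exact_mod_cast h4
    omega
  have hnat := nat_eq (E := E) (P := 4 * p) (by omega) (by omega) (by omega) hRH
  have hdvdc : c ∣ E := orderOf_dvd_natCard z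
  -- index of the last cyclic group
  obtain ⟨e, he⟩ := hdvdc
  have hidx : (zpowers z).index = e := by
    have h3 := (zpowers z).card_mul_index
    rw [Nat.card_zpowers, ← hc, ← hE, he] at h3
    exact Nat.eq_of_mul_eq_mul_left (by omega) h3
  have hsig := tri' h2 hxy hyz hs1 hs2
  have hrel4 : x * y * z * 1 = 1 := by rw [mul_one]; exact ht.1
  have hgen4 : closure {x, y, z, (1 : G)} = ⊤ := by
    rw [eq_top_iff, ← ht.2]
    apply Subgroup.closure_mono
    intro g hg
    simp only [Set.mem_insert_iff, Set.mem_singleton_iff] at hg ⊢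
    rcases hg with h | h | h
    · exact Or.inl h
    · exact Or.inr (Or.inl h)
    · exact Or.inr (Or.inr (Or.inl h))
  by_cases hpE : p ∣ E
  · obtain ⟨N, hN⟩ := hpE
    have hN168 : N ≤ 168 := by
      rw [hN, mul_comm 168 p] at hsmall
      exact Nat.le_of_mul_le_mul_left hsmall hp0
    have hc168 : c ≤ 168 := by
      rcases hsig with ⟨ha2, hb3⟩ | ⟨ha2, hb4⟩ | h19
      · rw [ha2, hb3, hN] at hnat
        have h3 : N * (c - 6) = 24 * (c - 6) + 144 := by
          have h5 := alg1 p N c hnat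
          have h6 := Nat.eq_of_mul_eq_mul_left hp0 h5
          have hc6 : 6 < c := by
            by_contra hcon
            push Not at hcon
            have h7 : N * c ≤ N * 6 := Nat.mul_le_mul_left _ hcon
            omega
          obtain ⟨d, hd⟩ : ∃ d, c = d + 6 := ⟨c - 6, by omega⟩
          rw [hd, Nat.add_sub_cancel]
          rw [hd, mul_add] at h6
          omega
        have h4 : c - 6 ∣ 144 := (Nat.dvd_add_right (dvd_mul_left _ _)).mp ⟨N, by rw [← h3, mul_comm]⟩
        have h5 := Nat.le_of_dvd (by norm_num) h4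
        omega
      · rw [ha2, hb4, hN] at hnat
        have h3 : N * (c - 4) = 16 * (c - 4) + 64 := by
          have h5 := alg2 p N c hnat
          have h6 := Nat.eq_of_mul_eq_mul_left (by omega) h5
          have hc6 : 4 < c := by
            by_contra hcon
            push Not at hcon
            have h7 : N * c ≤ N * 4 := Nat.mul_le_mul_left _ hcon
            omega
          obtain ⟨d, hd⟩ : ∃ d, c = d + 4 := ⟨c - 4, by omega⟩
          rw [hd, Nat.add_sub_cancel]
          rw [hd, mul_add] at h6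
          omega
        have h4 : c - 4 ∣ 64 := (Nat.dvd_add_right (dvd_mul_left _ _)).mp ⟨N, by rw [← h3, mul_comm]⟩
        have h5 := Nat.le_of_dvd (by norm_num) h4
        omega
      · omega
    exact caseI hpQ (hN) hN168 x y z 1 hrel4 hgen4 (by omega) (by omega) hc168 (one_pow 3)
  · have hpe : ¬ p ∣ e := fun h => hpE (by rw [he]; exact h.mul_left _)
    rcases hsig with ⟨ha2, hb3⟩ | ⟨ha2, hb4⟩ | h19
    · rw [ha2, hb3, he] at hnat
      have hc0 : 0 < c := by omega
      have h5 : e * c = 24 * p + 6 * e := by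
        have h6 := alg3 p e c hnat
        exact Nat.eq_of_mul_eq_mul_left hc0 h6
      have hc6 : 6 < c := by
        by_contra hcon
        push Not at hcon
        have h7 : e * c ≤ e * 6 := Nat.mul_le_mul_left _ hcon
        omega
      obtain ⟨d, hd⟩ : ∃ d, c = d + 6 := ⟨c - 6, by omega⟩
      have h6 : e * d = 24 * p := by
        rw [hd, mul_add] at h5; omega
      have h7 : p ∣ e * d := ⟨24, by rw [h6, mul_comm]⟩
      obtain ⟨k, hk⟩ := (hp.out.dvd_mul.mp h7).resolve_left hpe
      have h8 : e * k = 24 := by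
        rw [hk] at h6
        have h9 : p * (e * k) = p * 24 := by rw [← mul_assoc, mul_comm p e, mul_assoc, h6, mul_comm]
        exact Nat.eq_of_mul_eq_mul_left hp0 h9
      have hk0 : 0 < k := by
        rcases Nat.eq_zero_or_pos k with h | h
        · rw [h, mul_zero] at h8; omega
        · exact h
      have he24 : e ≤ 24 := Nat.le_of_dvd (by norm_num) ⟨k, h8.symm⟩
      have h9 := lemB x y z ht.1 ht.2 (by rw [← ha2, ha]; exact pow_orderOf_eq_one x)
        (by rw [← hb3, hb]; exact pow_orderOf_eq_one y) e hidx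
      have h10 : Nat.factorial e ≤ Nat.factorial 24 := Nat.factorial_le he24
      have h11 : p ≤ d := by rw [hk]; exact Nat.le_mul_of_pos_right _ hk0
      rw [← hc] at h9
      omega
    · rw [ha2, hb4, he] at hnat
      have hc0 : 0 < c := by omega
      have h5 : e * c = 16 * p + 4 * e := by
        have h6 := alg4 p e c hnat
        exact Nat.eq_of_mul_eq_mul_left (by omega) h6
      have he4 : 4 < e := by
        have h6 : E = e * c := by rw [he, mul_comm]
        rw [h6, h5] at hbig
        omega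
      have hc6 : 4 < c := by
        by_contra hcon
        push Not at hcon
        have h7 : e * c ≤ e * 4 := Nat.mul_le_mul_left _ hcon
        omega
      obtain ⟨d, hd⟩ : ∃ d, c = d + 4 := ⟨c - 4, by omega⟩
      have h6 : e * d = 16 * p := by
        rw [hd, mul_add] at h5; omega
      have h7 : p ∣ e * d := ⟨16, by rw [h6, mul_comm]⟩
      obtain ⟨k, hk⟩ := (hp.out.dvd_mul.mp h7).resolve_left hpe
      have h8 : e * k = 16 := by
        rw [hk] at h6
        have h9 : p * (e * k) = p * 16 := by rw [← mul_assoc, mul_comm p e, mul_assoc, h6, mul_comm]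
        exact Nat.eq_of_mul_eq_mul_left hp0 h9
      have he16 : e ∣ 16 := ⟨k, h8.symm⟩
      have he16' := Nat.le_of_dvd (by norm_num) he16
      have he' : e = 8 ∨ e = 16 := by
        interval_cases e <;> simp_all
      apply lemC x y z ht.1 ht.2 (by rw [← ha2, ha]; exact pow_orderOf_eq_one x)
        (by rw [← hb4, hb]; exact pow_orderOf_eq_one y) e hidx
      rcases he' with he8 | he16
      · left
        refine ⟨he8, fun w hw1 hw2 => ?_⟩
        have hk2 : k = 2 := by rw [he8] at h8; omega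
        rw [← hc, hd, hk, hk2] at hw1
        have hw3 : w ∣ p + 1 := (hw2.trans (Nat.factorial_dvd_factorial (by omega))).trans hpQ
        have hw4 : w ∣ 2 * (p + 1) := hw3.mul_left 2
        have h9 : p * 2 + 4 = 2 * (p + 1) + 2 := by ring
        rw [h9] at hw1
        exact (Nat.dvd_add_right hw4).mp hw1
      · right
        refine ⟨he16, fun w hw1 hw2 => ?_⟩
        have hk2 : k = 1 := by rw [he16] at h8; omega
        rw [← hc, hd, hk, hk2] at hw1
        have hw3 : w ∣ p + 1 := (hw2.trans (Nat.factorial_dvd_factorial (by omega))).trans hpQ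
        have h9 : p * 1 + 4 = (p + 1) + 3 := by ring
        rw [h9] at hw1
        exact (Nat.dvd_add_right hw3).mp hw1
    · -- bounded periods
      have ha19 : a ≤ 19 := by omega
      have hb19 : b ≤ 19 := by omega
      have hpos : 0 < a * b * c := by
        apply Nat.mul_pos (Nat.mul_pos (by omega) (by omega)) (by omega)
      have hlt : a * b * c ≤ 19 * 19 * 19 := Nat.mul_le_mul (Nat.mul_le_mul ha19 hb19) h19
      have hE0 : 0 < E := hcardn
      have h5 : b * c + a * c + a * b < a * b * c := by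
        by_contra hcon
        push Not at hcon
        have h6 : E * (a * b * c) ≤ E * (b * c + a * c + a * b) := Nat.mul_le_mul_left _ hcon
        have h7 : 0 < 4 * p * (a * b * c) := Nat.mul_pos (by omega) hpos
        omega
      obtain ⟨D, hD⟩ : ∃ D, a * b * c = D + (b * c + a * c + a * b) :=
        ⟨a * b * c - (b * c + a * c + a * b), by omega⟩
      have h6 : E * D = 4 * p * (a * b * c) := by
        have h7 : E * (a * b * c) = E * D + E * (b * c + a * c + a * b) := by
          rw [hD]; ring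
        omega
      have h7 : p ∣ E * D := by
        rw [h6]
        exact Dvd.intro_left 4 rfl |>.mul_right _
      have h8 := (hp.out.dvd_mul.mp h7).resolve_left hpE
      have h9 := Nat.le_of_dvd (by omega) h8
      omega

/-- The upper bound in the special genera. -/
theorem upper {p : ℕ} [hp : Fact p.Prime] (hpQ : Nat.factorial 168 ∣ p + 1)
    (hact : ActsOnGenus G (2 * p + 1)) : Nat.card G ≤ 8 * (2 * p + 1 + 1) := by
  by_contra hbig
  push Not at hbig
  have hhur := hurwitz (by have := hp.out.two_le; omega) hact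
  obtain ⟨hfin, h, r, v, hRH⟩ := hact
  have hm : ∀ i, 2 ≤ orderOf (v.c i) := fun i => order_ge (v.c_ne_one i)
  have hcard : (0 : ℚ) < (Nat.card G : ℚ) := by exact_mod_cast Nat.card_pos
  have hp0 : (0 : ℚ) < (p : ℚ) := by exact_mod_cast hp.out.pos
  set μ : ℚ := 2 * (h : ℚ) - 2 + ∑ i : Fin r, (1 - 1 / (orderOf (v.c i) : ℚ)) with hμ
  have hRH' : (Nat.card G : ℚ) * μ = 4 * p := by
    rw [← hRH]; push_cast; ring
  have hbig' : 16 * ((p : ℚ) + 1) < (Nat.card G : ℚ) := by
    have h1 : 16 * (p + 1) < Nat.card G := by omega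
    exact_mod_cast h1
  have hμ0 : 0 < μ := by
    by_contra hcon
    push Not at hcon
    have : (Nat.card G : ℚ) * μ ≤ 0 := mul_nonpos_of_nonneg_of_nonpos hcard.le hcon
    linarith
  have hμ1 : μ < 1 / 4 := by
    by_contra hcon
    push Not at hcon
    have : (Nat.card G : ℚ) * (1 / 4) ≤ (Nat.card G : ℚ) * μ :=
      mul_le_mul_of_nonneg_left hcon hcard.le
    linarith
  obtain ⟨rfl, hr⟩ := reduce (fun i => orderOf (v.c i)) hm hμ0 (by linarith)
  rcases hr with rfl | rfl
  · rw [Fin.sum_univ_three] at hμ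
    obtain ⟨x, y, z, ht, hxy, hyz, hmin, hsum⟩ := sorted (vec3 v)
    have hx2 : 2 ≤ orderOf x := le_trans (by
      have := hm 0; have := hm 1; have := hm 2; omega) hmin
    refine three hpQ x y z ht hx2 hxy hyz ?_ (by omega) (by omega)
    rw [hsum]
    push_cast
    rw [← hRH', hμ]
    push_cast
    ring
  · rw [Fin.sum_univ_four] at hμ
    have h4 := four' (hm 0) (hm 1) (hm 2) (hm 3) (by
      rw [hμ] at hμ0; push_cast at hμ0; linarith) (by
      rw [hμ] at hμ1; push_cast at hμ1; linarith)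
    have hv := vec4 v
    have fin : ∀ x y z w : G, (x * y * z * w = 1 ∧ closure {x, y, z, w} = ⊤) →
        orderOf x = 2 → orderOf y = 2 → orderOf z = 2 → orderOf w = 3 →
        μ = 1 / 6 → False := by
      intro x y z w hxyzw hx hy hz hw hμ6
      have h5 : (Nat.card G : ℚ) = ((p * 24 : ℕ) : ℚ) := by
        rw [hμ6] at hRH'; push_cast; linarith
      have h6 : Nat.card G = p * 24 := by exact_mod_cast h5
      exact caseI hpQ h6 (by norm_num) x y z w hxyzw.1 hxyzw.2 (by omega) (by omega) (by omega)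
        (by rw [← hw]; exact pow_orderOf_eq_one w)
    rcases h4 with ⟨h0, h1, h2, h3⟩ | ⟨h0, h1, h2, h3⟩ | ⟨h0, h1, h2, h3⟩ | ⟨h0, h1, h2, h3⟩
    · exact fin _ _ _ _ (rot4 hv) h1 h2 h3 h0 (by rw [hμ, h0, h1, h2, h3]; norm_num)
    · exact fin _ _ _ _ (rot4 (rot4 hv)) h2 h3 h0 h1 (by rw [hμ, h0, h1, h2, h3]; norm_num)
    · exact fin _ _ _ _ (rot4 (rot4 (rot4 hv))) h3 h0 h1 h2 (by rw [hμ, h0, h1, h2, h3]; norm_num)
    · exact fin _ _ _ _ hv h0 h1 h2 h3 (by rw [hμ, h0, h1, h2, h3]; norm_num)

/-- underlying set of the Accola-Maclachlan group -/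
@[ext] structure AM (n : ℕ) where
  a : ZMod 2
  j : ZMod n
  e : ZMod 2

namespace AM

variable {n : ℕ}

/-- sign -/
def sg (n : ℕ) (e : ZMod 2) : ZMod n := if e = 0 then 1 else -1

theorem sg_zero : sg n 0 = 1 := rfl

theorem sg_one : sg n 1 = -1 := rfl

theorem z2 (e : ZMod 2) : e = 0 ∨ e = 1 := by revert e; decide

theorem sg_add (e f : ZMod 2) : sg n (e + f) = sg n e * sg n f := by
  rcases z2 e with rfl | rfl <;> rcases z2 f with rfl | rfl
  · simp [sg_zero]
  · simp [sg_zero]
  · simp [sg_zero]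
  · have : (1 : ZMod 2) + 1 = 0 := by decide
    rw [this, sg_zero, sg_one]; ring

variable (hn : 2 ∣ n)

/-- parity -/
def par (hn : 2 ∣ n) : ZMod n →+* ZMod 2 := ZMod.castHom hn (ZMod 2)

theorem par_sg (e : ZMod 2) : par hn (sg n e) = 1 := by
  rcases z2 e with rfl | rfl
  · rw [sg_zero, map_one]
  · rw [sg_one, map_neg, map_one]; decide

theorem neg2 (x : ZMod 2) : -x = x := by revert x; decide

theorem add2 (x : ZMod 2) : x + x = 0 := by revert x; decide

/-- group structure -/
@[instance_reducible] def grp (hn : 2 ∣ n) : Group (AM n) where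
  mul x y := ⟨x.a + y.a + x.e * par hn y.j, x.j + sg n x.e * y.j, x.e + y.e⟩
  one := ⟨0, 0, 0⟩
  inv x := ⟨-x.a - x.e * par hn x.j, - (sg n x.e * x.j), x.e⟩
  mul_assoc x y z := by
    apply AM.ext
    · change x.a + y.a + x.e * par hn y.j + z.a + (x.e + y.e) * par hn z.j =
        x.a + (y.a + z.a + y.e * par hn z.j) + x.e * par hn (y.j + sg n y.e * z.j)
      rw [map_add, map_mul, par_sg]; ring
    · change x.j + sg n x.e * y.j + sg n (x.e + y.e) * z.j =
        x.j + sg n x.e * (y.j + sg n y.e * z.j)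
      rw [sg_add]; ring
    · exact add_assoc _ _ _
  one_mul x := by
    apply AM.ext
    · change 0 + x.a + 0 * par hn x.j = x.a; ring
    · change 0 + sg n 0 * x.j = x.j
      rw [sg_zero]; ring
    · exact zero_add _
  mul_one x := by
    apply AM.ext
    · change x.a + 0 + x.e * par hn 0 = x.a
      rw [map_zero]; ring
    · change x.j + sg n x.e * 0 = x.j; ring
    · exact add_zero _
  inv_mul_cancel x := by
    apply AM.ext
    · change -x.a - x.e * par hn x.j + x.a + x.e * par hn x.j = 0; ring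
    · change - (sg n x.e * x.j) + sg n x.e * x.j = 0; ring
    · exact add2 _

end AM

section

theorem exists_AM {n : ℕ} (hn : 2 ∣ n) (hn0 : 4 ≤ n) : ∃ (G : Type) (_ : Group G), Finite G ∧ Nat.card G = 4 * n ∧
    ∃ x y t : G, x * y * t = 1 ∧ closure {x, y, t} = ⊤ ∧ orderOf x = 4 ∧ orderOf y = n ∧
      orderOf t = 2 := by
  let _ : Group (AM n) := AM.grp hn
  have hmul : ∀ x y : AM n, x * y =
      ⟨x.a + y.a + x.e * AM.par hn y.j, x.j + AM.sg n x.e * y.j, x.e + y.e⟩ := fun x y => rfl
  have hone : (1 : AM n) = ⟨0, 0, 0⟩ := rfl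
  have hnz : NeZero n := ⟨by omega⟩
  let eqv : AM n ≃ (ZMod 2 × ZMod n) × ZMod 2 :=
    { toFun := fun x => ((x.a, x.j), x.e)
      invFun := fun x => ⟨x.1.1, x.1.2, x.2⟩
      left_inv := fun x => rfl
      right_inv := fun x => rfl }
  have hfin : Finite (AM n) := Finite.of_equiv _ eqv.symm
  have hcard : Nat.card (AM n) = 4 * n := by
    rw [Nat.card_congr eqv, Nat.card_prod, Nat.card_prod, Nat.card_zmod, Nat.card_zmod]; ring
  -- elements
  set Y : AM n := ⟨0, 1, 0⟩ with hY
  set T : AM n := ⟨0, 0, 1⟩ with hT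
  set X : AM n := ⟨1, 1, 1⟩ with hX
  have hTT : T * T = 1 := by
    rw [hmul, hone, hT]
    apply AM.ext
    · change (0 : ZMod 2) + 0 + 1 * AM.par hn 0 = 0
      rw [map_zero]; ring
    · change (0 : ZMod n) + AM.sg n 1 * 0 = 0; ring
    · exact AM.add2 _
  have hXY : X * Y = T := by
    rw [hmul, hX, hY, hT]
    apply AM.ext
    · change (1 : ZMod 2) + 0 + 1 * AM.par hn 1 = 0
      rw [map_one]; decide
    · change (1 : ZMod n) + AM.sg n 1 * 1 = 0
      rw [AM.sg_one]; ring
    · change (1 : ZMod 2) + 0 = 1; ring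
  have hYpow : ∀ k : ℕ, Y ^ k = ⟨0, (k : ZMod n), 0⟩ := by
    intro k
    induction k with
    | zero => rw [pow_zero, hone, Nat.cast_zero]
    | succ k ih =>
      rw [pow_succ, ih, hmul, hY]
      apply AM.ext
      · change (0 : ZMod 2) + 0 + 0 * AM.par hn 1 = 0; ring
      · change (k : ZMod n) + AM.sg n 0 * 1 = ((k + 1 : ℕ) : ZMod n)
        rw [AM.sg_zero]; push_cast; ring
      · change (0 : ZMod 2) + 0 = 0; ring
  have hX2 : X * X = ⟨1, 0, 0⟩ := by
    rw [hmul, hX]
    apply AM.ext
    · change (1 : ZMod 2) + 1 + 1 * AM.par hn 1 = 1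
      rw [map_one]; decide
    · change (1 : ZMod n) + AM.sg n 1 * 1 = 0
      rw [AM.sg_one]; ring
    · exact AM.add2 _
  have hX4 : X ^ 4 = 1 := by
    have h1 : X ^ 4 = (X * X) * (X * X) := by
      simp only [pow_succ, pow_zero, one_mul, mul_assoc]
    rw [h1, hX2, hmul, hone]
    apply AM.ext
    · change (1 : ZMod 2) + 1 + 0 * AM.par hn 0 = 0
      rw [map_zero]; decide
    · change (0 : ZMod n) + AM.sg n 0 * 0 = 0; ring
    · change (0 : ZMod 2) + 0 = 0; ring
  have hX2ne : X ^ 2 ≠ 1 := by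
    rw [pow_two, hX2, hone]
    intro h
    have h1 : (1 : ZMod 2) = 0 := congrArg AM.a h
    exact absurd h1 (by decide)
  refine ⟨AM n, inferInstance, hfin, hcard, X, Y, T, ?_, ?_, ?_, ?_, ?_⟩
  · rw [hXY, hTT]
  · rw [eq_top_iff]
    rintro ⟨a, j, e⟩ _
    have hXm : X ∈ closure {X, Y, T} := subset_closure (by simp)
    have hYm : Y ∈ closure {X, Y, T} := subset_closure (by simp)
    have hTm : T ∈ closure {X, Y, T} := subset_closure (by simp)
    have h1 : (⟨a, 0, 0⟩ : AM n) ∈ closure {X, Y, T} := by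
      rcases AM.z2 a with rfl | rfl
      · exact one_mem _
      · rw [← hX2]; exact mul_mem hXm hXm
    have h2 : (⟨0, j, 0⟩ : AM n) ∈ closure {X, Y, T} := by
      have h3 := hYpow j.val
      rw [ZMod.natCast_zmod_val] at h3
      rw [← h3]; exact pow_mem hYm _
    have h3 : (⟨0, 0, e⟩ : AM n) ∈ closure {X, Y, T} := by
      rcases AM.z2 e with rfl | rfl
      · exact one_mem _
      · exact hTm
    have h4 : (⟨a, j, e⟩ : AM n) = ⟨a, 0, 0⟩ * ⟨0, j, 0⟩ * ⟨0, 0, e⟩ := by
      rw [hmul, hmul]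
      apply AM.ext
      · change a = a + 0 + 0 * AM.par hn j + 0 + (0 + 0) * AM.par hn 0; ring
      · change j = 0 + AM.sg n 0 * j + AM.sg n (0 + 0) * 0
        rw [AM.sg_zero]; ring
      · change e = 0 + 0 + e; ring
    rw [h4]
    exact mul_mem (mul_mem h1 h2) h3
  · have h1 : orderOf X ∣ 2 ^ 2 := orderOf_dvd_of_pow_eq_one (by norm_num; exact hX4)
    obtain ⟨k, hk, hk2⟩ := (Nat.dvd_prime_pow Nat.prime_two).mp h1
    interval_cases k
    · exfalso; apply hX2ne
      rw [pow_zero] at hk2
      rw [orderOf_eq_one_iff.mp hk2, one_pow]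
    · exfalso; apply hX2ne
      rw [← pow_one 2, ← hk2]
      exact pow_orderOf_eq_one X
    · rw [hk2]; norm_num
  · apply Nat.dvd_antisymm
    · apply orderOf_dvd_of_pow_eq_one
      rw [hYpow, ZMod.natCast_self]; rfl
    · have h1 := pow_orderOf_eq_one Y
      rw [hYpow, hone] at h1
      have h2 : ((orderOf Y : ℕ) : ZMod n) = 0 := congrArg AM.j h1
      exact (ZMod.natCast_eq_zero_iff _ _).mp h2
  · rw [orderOf_eq_iff (by norm_num)]
    refine ⟨by rw [pow_two]; exact hTT, ?_⟩
    intro m hm hm0 h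
    have hm1 : m = 1 := by omega
    rw [hm1, pow_one, hT, hone] at h
    have h1 : (1 : ZMod 2) = 0 := congrArg AM.e h
    exact absurd h1 (by decide)

end

/-- a product-one generating triple gives a generating vector -/
def vecOfTrip {G : Type} [Group G] (x y z : G) (hx : x ≠ 1) (hy : y ≠ 1) (hz : z ≠ 1)
    (h1 : x * y * z = 1) (h2 : closure {x, y, z} = ⊤) : GeneratingVector G 0 3 where
  a := fun i => i.elim0
  b := fun i => i.elim0
  c := ![x, y, z]
  c_ne_one := by
    intro i
    fin_cases i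
    · exact hx
    · exact hy
    · exact hz
  closure_eq_top := by
    rw [eq_top_iff, ← h2]
    apply Subgroup.closure_mono
    intro g hg
    simp only [Set.mem_insert_iff, Set.mem_singleton_iff] at hg
    right
    rcases hg with h | h | h
    · exact ⟨0, h.symm⟩
    · exact ⟨1, h.symm⟩
    · exact ⟨2, h.symm⟩
  prod_eq_one := by
    simp [List.ofFn_succ, ← mul_assoc, h1]

/-- The Accola-Maclachlan action. -/
theorem lower {g : ℕ} (hg : 2 ≤ g) :
    ∃ (G : Type) (_ : Group G), ActsOnGenus G g ∧ Nat.card G = 8 * (g + 1) := by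
  obtain ⟨G, hG, hfin, hcard, x, y, t, hrel, hgen, hx, hy, ht⟩ :=
    exists_AM (n := 2 * (g + 1)) (dvd_mul_right _ _) (by omega)
  have hx1 : x ≠ 1 := fun h => by rw [h, orderOf_one] at hx; omega
  have hy1 : y ≠ 1 := fun h => by rw [h, orderOf_one] at hy; omega
  have ht1 : t ≠ 1 := fun h => by rw [h, orderOf_one] at ht; omega
  refine ⟨G, hG, ⟨hfin, 0, 3, vecOfTrip x y t hx1 hy1 ht1 hrel hgen, ?_⟩, by rw [hcard]; ring⟩
  rw [Fin.sum_univ_three]
  have h0 : (vecOfTrip x y t hx1 hy1 ht1 hrel hgen).c 0 = x := rfl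
  have h1 : (vecOfTrip x y t hx1 hy1 ht1 hrel hgen).c 1 = y := rfl
  have h2 : (vecOfTrip x y t hx1 hy1 ht1 hrel hgen).c 2 = t := rfl
  rw [h0, h1, h2, hx, hy, ht, hcard]
  push_cast
  have hg1 : (g : ℚ) + 1 ≠ 0 := by positivity
  field_simp
  ring

/-- The genera `2 p + 1` attain the bound for the primes `p` with `p = -1` modulo `168!`. -/
theorem mem_genera {p : ℕ} (hp : p.Prime) (hpQ : Nat.factorial 168 ∣ p + 1) :
    2 * p + 1 ∈ accolaMaclachlanGenera := by
  have hg : 2 ≤ 2 * p + 1 := by have := hp.two_le; omega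
  refine ⟨hg, lower hg, ?_⟩
  rintro n ⟨G, hG, hact, rfl⟩
  have : Fact p.Prime := ⟨hp⟩
  exact upper hpQ hact

open LSeries in
theorem abscissa_of_primes (S : Set ℕ) (Q : ℕ) [NeZero Q]
    (hS : ∀ p : ℕ, p.Prime → Q ∣ p + 1 → 2 * p + 1 ∈ S) :
    LSeries.abscissaOfAbsConv (S.indicator (fun _ => (1 : ℂ))) = 1 := by
  classical
  set f : ℕ → ℂ := S.indicator (fun _ => (1 : ℂ)) with hf
  apply le_antisymm
  · apply LSeries.abscissaOfAbsConv_le_of_le_const
    refine ⟨1, fun n _ => ?_⟩
    rw [hf]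
    by_cases h : n ∈ S
    · rw [Set.indicator_of_mem h]; simp
    · rw [Set.indicator_of_notMem h]; simp
  · by_contra hcon
    push Not at hcon
    obtain ⟨x0, hx0, hx1⟩ := EReal.exists_between_coe_real hcon
    have hx1' : x0 < 1 := by exact_mod_cast hx1
    set x : ℝ := max x0 (1 / 2) with hx
    have hxlt : x < 1 := max_lt hx1' (by norm_num)
    have hxpos : 0 < x := lt_of_lt_of_le (by norm_num) (le_max_right _ _)
    have hsum : LSeriesSummable f (x : ℂ) := by
      apply LSeriesSummable_of_abscissaOfAbsConv_lt_re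
      rw [Complex.ofReal_re]
      refine lt_of_lt_of_le hx0 ?_
      exact_mod_cast le_max_left x0 (1 / 2)
    have h1 : Summable (fun n : ℕ => ‖term f (x : ℂ) n‖) := hsum.norm
    have hinj : Function.Injective (fun p : ℕ => 2 * p + 1) := by
      intro a b h
      simp only at h
      omega
    have h2 : Summable (fun p : ℕ => ‖term f (x : ℂ) (2 * p + 1)‖) := h1.comp_injective hinj
    set ε : ℝ := 1 - x with hε
    have hεpos : 0 < ε := by linarith
    have h3 : Summable (fun p : ℕ => (3 ^ x / ε) * ‖term f (x : ℂ) (2 * p + 1)‖) := h2.mul_left _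
    have hunit : IsUnit (-1 : ZMod Q) := isUnit_one.neg
    refine ArithmeticFunction.vonMangoldt.not_summable_residueClass_prime_div hunit ?_
    refine Summable.of_nonneg_of_le (fun p => ?_) (fun p => ?_) h3
    · split_ifs
      · exact div_nonneg (ArithmeticFunction.vonMangoldt.residueClass_nonneg _ _) (Nat.cast_nonneg _)
      · rw [zero_div]
    · by_cases hpp : p.Prime
      · rw [if_pos hpp]
        by_cases hres : ((p : ℕ) : ZMod Q) = -1
        · have hdvd : Q ∣ p + 1 := by
            rw [← ZMod.natCast_eq_zero_iff, Nat.cast_add, hres]; simp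
          have hmem := hS p hpp hdvd
          have hterm : ‖term f (x : ℂ) (2 * p + 1)‖ = 1 / (2 * (p : ℝ) + 1) ^ x := by
            rw [norm_term_eq, if_neg (by omega), hf, Set.indicator_of_mem hmem, norm_one,
              Complex.ofReal_re]
            push_cast
            rfl
          have hΛ : ArithmeticFunction.vonMangoldt.residueClass (-1 : ZMod Q) p =
              Real.log p := by
            have hm : p ∈ {n : ℕ | (n : ZMod Q) = -1} := hres
            unfold ArithmeticFunction.vonMangoldt.residueClass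
            rw [Set.indicator_of_mem hm]
            exact ArithmeticFunction.vonMangoldt_apply_prime hpp
          rw [hΛ, hterm]
          have hp1 : (1 : ℝ) ≤ (p : ℝ) := by exact_mod_cast hpp.one_lt.le
          have hp0 : (0 : ℝ) < (p : ℝ) := by linarith
          have hlog : Real.log p ≤ (p : ℝ) ^ ε / ε := Real.log_le_rpow_div hp0.le hεpos
          have h4 : (2 * (p : ℝ) + 1) ^ x ≤ 3 ^ x * (p : ℝ) ^ x := by
            rw [← Real.mul_rpow (by norm_num) hp0.le]
            apply Real.rpow_le_rpow (by positivity) (by linarith) hxpos.le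
          have h5 : (p : ℝ) ^ ε / p = 1 / (p : ℝ) ^ x := by
            rw [hε, Real.rpow_sub hp0, Real.rpow_one]
            field_simp
          have h6 : (0 : ℝ) < (2 * (p : ℝ) + 1) ^ x := by positivity
          have h7 : (0 : ℝ) < (p : ℝ) ^ x := by positivity
          calc Real.log p / p ≤ ((p : ℝ) ^ ε / ε) / p := by gcongr
            _ = (1 / ε) * ((p : ℝ) ^ ε / p) := by ring
            _ = (1 / ε) * (1 / (p : ℝ) ^ x) := by rw [h5]
            _ ≤ (1 / ε) * (3 ^ x * (1 / (2 * (p : ℝ) + 1) ^ x)) := by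
                apply mul_le_mul_of_nonneg_left _ (by positivity)
                rw [mul_one_div, div_le_div_iff₀ h7 h6, one_mul]
                exact h4
            _ = 3 ^ x / ε * (1 / (2 * (p : ℝ) + 1) ^ x) := by ring
        · have hm : p ∉ {n : ℕ | (n : ZMod Q) = -1} := hres
          have hΛ : ArithmeticFunction.vonMangoldt.residueClass (-1 : ZMod Q) p =
              0 := by
            unfold ArithmeticFunction.vonMangoldt.residueClass
            rw [Set.indicator_of_notMem hm]
          rw [hΛ, zero_div]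
          positivity
      · rw [if_neg hpp, zero_div]
        positivity

/-- The abscissa of convergence of the Dirichlet series of `H` is `1`. -/
theorem result :
    LSeries.abscissaOfAbsConv (accolaMaclachlanGenera.indicator (fun _ => (1 : ℂ))) = 1 := by
  have : NeZero (Nat.factorial 168) := ⟨Nat.factorial_ne_zero 168⟩
  exact abscissa_of_primes _ (Nat.factorial 168) (fun p hp hpQ => mem_genera hp hpQ)

end Pool.Agent.Results.MP_01ebcc_al.AbscissaOne
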